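import Pool.Agent.Lcg.Main

/-! Chains of blocks: sparse subsets, counting. -/

set_option autoImplicit false

namespace Pool.Agent.Inv

open Finset Pool.Agent.SRC Pool.Agent.Lcg

variable {d : ℕ}

/-- The points at sup distance at most `D` from `z`. -/
noncomputable def nb (D : ℕ) (z : Vx d) : Finset (Vx d) :=
  Finset.Icc (fun i => z i - (D : ℤ)) (fun i => z i + (D : ℤ))

theorem mem_nb (D : ℕ) (z w : Vx d) : w ∈ nb D z ↔ near (D : ℤ) z w := by
  unfold nb near
  rw [Finset.mem_Icc, Pi.le_def, Pi.le_def]
  constructor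
  · rintro ⟨h1, h2⟩ i
    have := h1 i
    have := h2 i
    rw [abs_le]
    constructor <;> linarith
  · intro h
    constructor <;> intro i <;> have := abs_le.mp (h i) <;> linarith [this.1, this.2]

theorem card_nb (D : ℕ) (z : Vx d) : (nb D z).card = (2 * D + 1) ^ d := by
  unfold nb
  rw [Pi.card_Icc]
  have h1 : ∀ i : Fin d, (Finset.Icc (z i - (D : ℤ)) (z i + (D : ℤ))).card = 2 * D + 1 := by
    intro i
    rw [Int.card_Icc]
    omega
  rw [Finset.prod_congr rfl fun i _ => h1 i, Finset.prod_const, Finset.card_univ, Fintype.card_fin]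

theorem near_symm {D : ℤ} {z w : Vx d} (h : near D z w) : near D w z := fun i => by
  rw [abs_sub_comm]
  exact h i

/-- A sparse subset of a finite set of indices. -/
theorem sparse_aux (u : ℕ → Vx d) (D : ℕ) (M : Finset ℕ)
    (hu : ∀ i ∈ M, ∀ j ∈ M, u i = u j → i = j) :
    ∃ J : Finset ℕ, J ⊆ M ∧ M.card ≤ (2 * D + 1) ^ d * J.card ∧
      ∀ i ∈ J, ∀ j ∈ J, i ≠ j → ¬ near (D : ℤ) (u i) (u j) := by
  classical
  induction M using Finset.strongInduction with
  | H M ih =>
    rcases M.eq_empty_or_nonempty with rfl | ⟨i0, hi0⟩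
    · exact ⟨∅, Finset.Subset.refl _, by simp, by simp⟩
    · set M' := M.filter fun i => ¬ near (D : ℤ) (u i0) (u i) with hM'
      have hself : near (D : ℤ) (u i0) (u i0) := fun k => by
        rw [sub_self, abs_zero]
        exact Int.natCast_nonneg D
      have hss : M' ⊂ M := by
        refine ⟨Finset.filter_subset _ _, fun h => ?_⟩
        have := h hi0
        rw [hM', mem_filter] at this
        exact this.2 hself
      obtain ⟨J, hJ1, hJ2, hJ3⟩ := ih M' hss fun i hi j hj =>
        hu i (hss.1 hi) j (hss.1 hj)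
      have hi0J : i0 ∉ J := fun h => by
        have := hJ1 h
        rw [hM', mem_filter] at this
        exact this.2 hself
      refine ⟨insert i0 J, ?_, ?_, ?_⟩
      · rw [Finset.insert_subset_iff]
        exact ⟨hi0, hJ1.trans hss.1⟩
      · rw [Finset.card_insert_of_notMem hi0J, mul_add, mul_one]
        have h1 : M.card = M'.card + (M.filter fun i => near (D : ℤ) (u i0) (u i)).card := by
          rw [hM', add_comm]
          exact (Finset.card_filter_add_card_filter_not _).symm
        have h2 : (M.filter fun i => near (D : ℤ) (u i0) (u i)).card ≤ (2 * D + 1) ^ d := by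
          rw [← card_nb D (u i0)]
          refine Finset.card_le_card_of_injOn u (fun i hi => ?_) fun i hi j hj h => ?_
          · rw [Finset.mem_coe, mem_filter] at hi
            rw [Finset.mem_coe, mem_nb]
            exact hi.2
          · rw [Finset.mem_coe, mem_filter] at hi hj
            exact hu i hi.1 j hj.1 h
        omega
      · intro i hi j hj hij
        rw [mem_insert] at hi hj
        rcases hi with rfl | hi <;> rcases hj with rfl | hj
        · exact absurd rfl hij
        · have := hJ1 hj
          rw [hM', mem_filter] at this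
          exact this.2
        · have := hJ1 hi
          rw [hM', mem_filter] at this
          exact fun h => this.2 (near_symm h)
        · exact hJ3 i hi j hj hij

/-- A sparse subset of a chain. -/
theorem sparse (u : ℕ → Vx d) (m D : ℕ)
    (hu : ∀ i ∈ Finset.Icc 1 m, ∀ j ∈ Finset.Icc 1 m, u i = u j → i = j) :
    ∃ J : Finset ℕ, J ⊆ Finset.Icc 1 m ∧ m ≤ (2 * D + 1) ^ d * J.card ∧
      ∀ i ∈ J, ∀ j ∈ J, i ≠ j → ¬ near (D : ℤ) (u i) (u j) := by
  obtain ⟨J, h1, h2, h3⟩ := sparse_aux u D (Finset.Icc 1 m) hu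
  rw [Nat.card_Icc, Nat.add_sub_cancel] at h2
  exact ⟨J, h1, h2, h3⟩

open Classical in
/-- The chains `(u 1, …, u r)` with `u 1` near `w` and steps at most `1`; `u i = 0` off `Icc 1 r`. -/
noncomputable def chn (a : ℕ) (w : Vx d) : ℕ → Finset (ℕ → Vx d)
  | 0 => {fun _ => 0}
  | r + 1 => (chn a w r).biUnion fun u =>
      (nb (if r = 0 then a + 1 else 1) (if r = 0 then w else u r)).image fun v =>
        Function.update u (r + 1) v

theorem card_chn (a : ℕ) (w : Vx d) (r : ℕ) :
    (chn a w r).card ≤ (2 * a + 3) ^ d * (3 ^ d) ^ (r - 1) := by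
  classical
  induction r with
  | zero =>
    have h1 : (chn a w 0).card = 1 := Finset.card_singleton _
    rw [h1]
    exact Nat.one_le_iff_ne_zero.2 (by positivity)
  | succ r ih =>
    have h1 : (chn a w (r + 1)).card ≤ ∑ u ∈ chn a w r,
        (2 * (if r = 0 then a + 1 else 1) + 1) ^ d := by
      rw [chn]
      refine (Finset.card_biUnion_le).trans (Finset.sum_le_sum fun u _ => ?_)
      refine (Finset.card_image_le).trans ?_
      rw [card_nb]
    rw [Finset.sum_const, smul_eq_mul] at h1
    refine h1.trans ?_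
    rcases Nat.eq_zero_or_pos r with rfl | hr
    · have h2 : (chn a w 0).card = 1 := Finset.card_singleton _
      rw [h2, if_pos rfl]
      have h3 : 2 * (a + 1) + 1 = 2 * a + 3 := by ring
      rw [h3]
      simp
    · rw [if_neg (by omega)]
      have h2 : r + 1 - 1 = (r - 1) + 1 := by omega
      rw [h2, pow_succ, ← mul_assoc]
      exact Nat.mul_le_mul_right _ ih

theorem exists_chn (a : ℕ) (w : Vx d) (r : ℕ) (u : ℕ → Vx d)
    (h1 : 1 ≤ r → near ((a : ℤ) + 1) w (u 1))
    (h2 : ∀ i, 1 ≤ i → i < r → near 1 (u i) (u (i + 1))) :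
    ∃ u' ∈ chn a w r, ∀ i, 1 ≤ i → i ≤ r → u' i = u i := by
  classical
  induction r with
  | zero => exact ⟨_, Finset.mem_singleton_self _, fun i hi hi' => by omega⟩
  | succ r ih =>
    obtain ⟨u', hu', hi'⟩ := ih (fun h => h1 (by omega)) (fun i hi hir => h2 i hi (by omega))
    refine ⟨Function.update u' (r + 1) (u (r + 1)), ?_, fun i hi hir => ?_⟩
    · rw [chn, mem_biUnion]
      refine ⟨u', hu', mem_image.2 ⟨u (r + 1), ?_, rfl⟩⟩
      rw [mem_nb]
      rcases Nat.eq_zero_or_pos r with rfl | hr
      · rw [if_pos rfl, if_pos rfl]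
        push_cast
        exact h1 le_rfl
      · rw [if_neg (by omega), if_neg (by omega), hi' r hr le_rfl]
        exact_mod_cast h2 r hr (Nat.lt_succ_self r)
    · by_cases h : i = r + 1
      · subst h
        rw [Function.update_self]
      · rw [Function.update_of_ne h]
        exact hi' i hi (by omega)

theorem chn_off (a : ℕ) (w : Vx d) (r : ℕ) (u : ℕ → Vx d) (hu : u ∈ chn a w r) (i : ℕ)
    (hi : i = 0 ∨ r < i) : u i = 0 := by
  classical
  induction r generalizing u with
  | zero =>
    rw [chn, mem_singleton] at hu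
    rw [hu]
  | succ r ih =>
    rw [chn, mem_biUnion] at hu
    obtain ⟨u', hu', h1⟩ := hu
    rw [mem_image] at h1
    obtain ⟨v, _, rfl⟩ := h1
    rw [Function.update_of_ne (by omega)]
    exact ih u' hu' (by omega)

end Pool.Agent.Inv
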