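import Pool.Agent.Inv.Final
import Pool.Agent.Glu.Cube

/-! The end of the differential inequality: average over `k`, limit `N → ∞`, sum over `r`. -/

set_option autoImplicit false

namespace Pool.Agent.Inv

open Finset Filter Pool.Agent.SRC Pool.Agent.Glu

variable {d : ℕ}

/-- The cube of radius `m` round `w` is joined to the sphere of radius `k`. -/
noncomputable def hb (k m : ℕ) (w : Vx d) (η b : Finset (Ed d)) : ℝ :=
  ind (∃ y, y ∈ cube w m ∧ ∃ v, conn (↑(η ∪ b) : Set (Ed d)) y v ∧ nm v = k)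

/-- `0` is not joined to distance `n`, and the cluster of `0` and the set of vertices joined to distance `n`
both meet the cube of radius `m` round `w`. -/
noncomputable def em (n m : ℕ) (w : Vx d) (η b : Finset (Ed d)) : ℝ :=
  ind (¬ Far (n : ℤ) (↑(η ∪ b) : Set (Ed d)) 0 ∧
    (∃ u, u ∈ cube w m ∧ conn (↑(η ∪ b) : Set (Ed d)) 0 u) ∧
    ∃ u, u ∈ cube w m ∧ ∃ z, (∃ i, (n : ℤ) ≤ |z i|) ∧ conn (↑(η ∪ b) : Set (Ed d)) u z)

/-- Output of the swap argument. -/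
def H1 (d : ℕ) (x a b : ℝ) : Prop :=
  ∃ (K : ℕ) (C ρ : ℝ) (n₀ : ℕ), 1 ≤ K ∧ 0 ≤ C ∧ 0 ≤ ρ ∧ ρ < 1 ∧
    ∀ s ∈ Set.Icc a b, ∀ n : ℕ, n₀ ≤ n → ∀ ε : ℝ, 0 < ε → ∃ (R : ℕ) (W : Finset (Vx d)),
      ∀ᶠ N in atTop, ∀ k ∈ Finset.Icc 1 n,
        PE x s (boxE d N) (far n 0) * (1 - PE x s (boxE d N) (far n 0)) ≤
          ∑ w ∈ W, ∑ r ∈ Finset.range R, C * ρ ^ r *
            (PE x s (boxE d N) (hb k (K * (r + 1)) w) *
              PE x s (boxE d N) (em n (K * (r + 1)) w)) + ε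

/-- Gluing lemma. -/
def H2 (d : ℕ) (x a b : ℝ) : Prop :=
  ∀ δ : ℝ, 0 < δ → ∃ C : ℕ, ∀ s ∈ Set.Icc a b, ∀ (n m : ℕ) (v : Vx d), ∀ᶠ N in atTop,
    PE x s (boxE d N) (em n m v) ≤
      C * Real.exp (δ * m) * ∑ e ∈ edg (cube v (m + C)), PE x s (boxE d N) (pv n e)

/-- Distance of `y` to the sphere of radius `k`. -/
def ds (k : ℕ) (y : Vx d) : ℕ := (k - nm y) + (nm y - k)

theorem hb_le (hd : 1 ≤ d) (k m : ℕ) (w : Vx d) (η b : Finset (Ed d)) :
    hb k m w η b ≤ ∑ y ∈ cube w m, far (ds k y) y η b := by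
  classical
  by_cases h : ∃ y, y ∈ cube w m ∧ ∃ v, conn (↑(η ∪ b) : Set (Ed d)) y v ∧ nm v = k
  · obtain ⟨y, hy, v, hv, hk⟩ := h
    have h1 : hb k m w η b ≤ 1 := ind_le_one _
    have h2 : far (ds k y) y η b = 1 := by
      have h3 := hit_le_far hd k y η b
      have h4 : hit k y η b = 1 := ind_true ⟨v, hv, hk⟩
      rw [h4] at h3
      exact le_antisymm (far_le_one _ _ _ _) h3
    have h3 := Finset.single_le_sum (f := fun y => far (ds k y) y η b)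
      (fun y _ => far_nonneg _ _ _ _) hy
    linarith
  · have h1 : hb k m w η b = 0 := ind_false h
    rw [h1]
    exact Finset.sum_nonneg fun y _ => far_nonneg _ _ _ _

theorem pv_off (n : ℕ) (hn : 1 ≤ n) (e : Ed d) (he : e ∉ boxE d n) (η b : Finset (Ed d)) :
    pv n e η b = 0 := by
  have h1 := far_loc n hn η (insert e b)
  have h2 := far_loc n hn η (b.erase e)
  have h3 : insert e b ∩ boxE d n = b.erase e ∩ boxE d n := by
    ext f
    rw [mem_inter, mem_inter, mem_insert, mem_erase]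
    constructor
    · rintro ⟨h3 | h3, h4⟩
      · exact absurd (h3 ▸ h4) he
      · exact ⟨⟨fun h5 => he (h5 ▸ h4), h3⟩, h4⟩
    · rintro ⟨⟨_, h3⟩, h4⟩
      exact ⟨Or.inr h3, h4⟩
  rw [h3, ← h2] at h1
  unfold far at h1
  refine ind_false fun h => ?_
  rw [ind_true h.1, ind_false h.2] at h1
  norm_num at h1

theorem PI_pv_off (x : ℝ) (hx : 0 ≤ x) (hx1 : x ≤ 1) (s : ℝ) (n : ℕ) (hn : 1 ≤ n) (e : Ed d)
    (he : e ∉ boxE d n) : PI x s (pv n e) = 0 := by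
  have h1 : pv n e = fun _ _ : Finset (Ed d) => (0 : ℝ) := by
    funext η b
    exact pv_off n hn e he η b
  rw [h1, PI_const x hx hx1]

theorem card_cube_nat (w : Vx d) (m : ℕ) : (cube w (m : ℤ)).card = (2 * m + 1) ^ d := by
  unfold cube
  rw [Pi.card_Icc]
  have h1 : ∀ i : Fin d, (Finset.Icc (w i - (m : ℤ)) (w i + (m : ℤ))).card = 2 * m + 1 := by
    intro i
    rw [Int.card_Icc]
    omega
  rw [Finset.prod_congr rfl fun i _ => h1 i, Finset.prod_const, Finset.card_univ, Fintype.card_fin]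

/-- Every edge is counted at most `(2M+1)^d` times. -/
theorem sum_edg_le (g : Ed d → ℝ) (hg : ∀ e, 0 ≤ g e) (F : Finset (Ed d))
    (hF : ∀ e, e ∉ F → g e = 0) (W : Finset (Vx d)) (M : ℕ) :
    ∑ w ∈ W, ∑ e ∈ edg (cube w (M : ℤ)), g e ≤ (2 * M + 1) ^ d * ∑ e ∈ F, g e := by
  classical
  have h1 : ∀ w ∈ W, ∑ e ∈ edg (cube w (M : ℤ)), g e ≤
      ∑ e ∈ F, if w ∈ cube e.1 (M : ℤ) then g e else 0 := by
    intro w _
    have h2 : ∑ e ∈ edg (cube w (M : ℤ)), g e =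
        ∑ e ∈ (edg (cube w (M : ℤ))).filter (fun e => e ∈ F), g e := by
      symm
      refine Finset.sum_subset (Finset.filter_subset _ _) fun e h3 h4 => ?_
      rw [mem_filter, not_and] at h4
      exact hF e (h4 h3)
    rw [h2, ← Finset.sum_filter]
    refine Finset.sum_le_sum_of_subset_of_nonneg ?_ fun e _ _ => hg e
    intro e he
    rw [mem_filter, mem_edg, mem_cube] at he
    rw [mem_filter, mem_cube]
    exact ⟨he.2, fun i => by rw [abs_sub_comm]; exact he.1.1 i⟩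
  refine (Finset.sum_le_sum h1).trans ?_
  rw [Finset.sum_comm, Finset.mul_sum]
  refine Finset.sum_le_sum fun e _ => ?_
  rw [← Finset.sum_filter, Finset.sum_const, nsmul_eq_mul]
  refine mul_le_mul_of_nonneg_right ?_ (hg e)
  have h2 : (W.filter fun w => w ∈ cube e.1 (M : ℤ)).card ≤ (2 * M + 1) ^ d := by
    rw [← card_cube_nat e.1 M]
    refine Finset.card_le_card fun w hw => ?_
    exact (mem_filter.1 hw).2
  exact_mod_cast h2

/-- Convergence of the series in `r`. -/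
theorem series (d K C₁ : ℕ) (δ ρ : ℝ) (hρ : 0 < ρ) (h : ρ * Real.exp (δ * K) < 1) :
    ∃ Q : ℝ, 0 ≤ Q ∧ ∀ R : ℕ, ∑ r ∈ Finset.range R, ρ ^ r * ((2 * ((K * (r + 1) : ℕ) : ℝ) + 1) ^ d *
      (Real.exp (δ * ((K * (r + 1) : ℕ) : ℝ)) *
        (2 * ((K * (r + 1) + C₁ : ℕ) : ℝ) + 1) ^ d)) ≤ Q := by
  set q : ℝ := ρ * Real.exp (δ * K) with hq
  have hq0 : 0 < q := mul_pos hρ (Real.exp_pos _)
  have h1 : Summable fun r : ℕ => ((r : ℝ)) ^ (2 * d) * q ^ r :=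
    summable_pow_mul_geometric_of_norm_lt_one (2 * d) (by
      rw [Real.norm_eq_abs, abs_of_pos hq0]
      exact h)
  have h2 : Summable fun r : ℕ => (((r + 1 : ℕ) : ℝ)) ^ (2 * d) * q ^ (r + 1) :=
    (summable_nat_add_iff 1).2 h1
  set A : ℝ := 2 * K + 2 * C₁ + 1 with hA
  have hA0 : 0 ≤ A := by positivity
  set B : ℝ := A ^ d * A ^ d * Real.exp (δ * K) / q with hB
  have hB0 : 0 ≤ B := by positivity
  refine ⟨∑' r : ℕ, B * ((((r + 1 : ℕ) : ℝ)) ^ (2 * d) * q ^ (r + 1)),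
    tsum_nonneg fun r => by positivity, fun R => ?_⟩
  refine le_trans (Finset.sum_le_sum fun r _ => ?_)
    ((h2.mul_left B).sum_le_tsum (Finset.range R) fun r _ => by positivity)
  have h3 : (2 * ((K * (r + 1) : ℕ) : ℝ) + 1) ≤ A * ((r + 1 : ℕ) : ℝ) := by
    push_cast
    rw [hA]
    have h4 : (0 : ℝ) ≤ r := Nat.cast_nonneg r
    have h5 : (0 : ℝ) ≤ C₁ := Nat.cast_nonneg C₁
    nlinarith [mul_nonneg h5 h4]
  have h4 : (2 * ((K * (r + 1) + C₁ : ℕ) : ℝ) + 1) ≤ A * ((r + 1 : ℕ) : ℝ) := by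
    push_cast
    rw [hA]
    have h4 : (0 : ℝ) ≤ r := Nat.cast_nonneg r
    have h5 : (0 : ℝ) ≤ C₁ := Nat.cast_nonneg C₁
    nlinarith [mul_nonneg h5 h4]
  have h5 : Real.exp (δ * ((K * (r + 1) : ℕ) : ℝ)) = Real.exp (δ * K) * Real.exp (δ * K) ^ r := by
    rw [← Real.exp_nat_mul, ← Real.exp_add]
    congr 1
    push_cast
    ring
  have h6 : (2 * ((K * (r + 1) : ℕ) : ℝ) + 1) ^ d ≤ (A * ((r + 1 : ℕ) : ℝ)) ^ d :=
    pow_le_pow_left₀ (by positivity) h3 d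
  have h7 : (2 * ((K * (r + 1) + C₁ : ℕ) : ℝ) + 1) ^ d ≤ (A * ((r + 1 : ℕ) : ℝ)) ^ d :=
    pow_le_pow_left₀ (by positivity) h4 d
  calc ρ ^ r * ((2 * ((K * (r + 1) : ℕ) : ℝ) + 1) ^ d *
      (Real.exp (δ * ((K * (r + 1) : ℕ) : ℝ)) * (2 * ((K * (r + 1) + C₁ : ℕ) : ℝ) + 1) ^ d))
      ≤ ρ ^ r * ((A * ((r + 1 : ℕ) : ℝ)) ^ d * ((Real.exp (δ * K) * Real.exp (δ * K) ^ r) *
          (A * ((r + 1 : ℕ) : ℝ)) ^ d)) := by
        rw [h5]
        refine mul_le_mul_of_nonneg_left ?_ (by positivity)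
        refine mul_le_mul h6 ?_ (by positivity) (by positivity)
        exact mul_le_mul_of_nonneg_left h7 (by positivity)
    _ = B * ((((r + 1 : ℕ) : ℝ)) ^ (2 * d) * q ^ (r + 1)) := by
        have hqr : q ^ r = ρ ^ r * Real.exp (δ * K) ^ r := by rw [hq, mul_pow]
        rw [hB, two_mul, pow_add, mul_pow A, pow_succ q r, div_mul_eq_mul_div,
          eq_div_iff hq0.ne', hqr]
        ring

/-- The end of the differential inequality. -/
theorem DI_of (hd : 1 ≤ d) (x : ℝ) (hx : 0 ≤ x) (hx1 : x ≤ 1) (a b : ℝ) (ha : 0 ≤ a)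
    (hb1 : b ≤ 1) (h1 : H1 d x a b) (h2 : H2 d x a b) : DI d x a b := by
  classical
  obtain ⟨K, C, ρ₀, n₀, hK, hC, hρ₀, hρ₁, h1⟩ := h1
  -- a positive ρ
  set ρ : ℝ := max ρ₀ (1 / 2) with hρd
  have hρ : 0 < ρ := lt_of_lt_of_le (by norm_num) (le_max_right _ _)
  have hρ1 : ρ < 1 := max_lt hρ₁ (by norm_num)
  have hK0 : (0 : ℝ) < K := by exact_mod_cast hK
  have hq1 : 1 < (1 + ρ) / (2 * ρ) := by
    rw [one_lt_div (by linarith)]
    linarith
  set δ : ℝ := Real.log ((1 + ρ) / (2 * ρ)) / K with hδ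
  have hδ0 : 0 < δ := div_pos (Real.log_pos hq1) hK0
  have hδK : ρ * Real.exp (δ * K) < 1 := by
    rw [hδ, div_mul_cancel₀ _ hK0.ne', Real.exp_log (by linarith)]
    have : ρ * ((1 + ρ) / (2 * ρ)) = (1 + ρ) / 2 := by
      field_simp
    rw [this]
    linarith
  obtain ⟨C₁, h2⟩ := h2 δ hδ0
  obtain ⟨Q, hQ0, hQ⟩ := series d K C₁ δ ρ hρ hδK
  refine ⟨2 * C * C₁ * Q + 1, by positivity, max n₀ 1, fun s hs n hn => ?_⟩
  have hn0 : n₀ ≤ n := (le_max_left _ _).trans hn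
  have hn1 : 1 ≤ n := (le_max_right _ _).trans hn
  have hs0 : 0 ≤ s := ha.trans hs.1
  have hs1 : s ≤ 1 := hs.2.trans hb1
  set S : ℝ := ∑ k ∈ Finset.range n, th d x s k with hS
  set G : ℝ := ∑ e ∈ boxE d n, PI x s (pv n e) with hG
  have hpvn : ∀ e : Ed d, 0 ≤ PI x s (pv n e) := fun e => PI_pv_nonneg x hx hx1 s hs0 hs1 n hn1 e
  have hS0 : 0 ≤ S := Finset.sum_nonneg fun k _ => th_nonneg x hx hx1 s hs0 hs1 k
  have hG0 : 0 ≤ G := Finset.sum_nonneg fun e _ => hpvn e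
  refine le_of_forall_pos_le_add fun ε' hε' => ?_
  have hnp : (0 : ℝ) < n := by exact_mod_cast hn1
  obtain ⟨R, W, h1⟩ := h1 s hs n hn0 (ε' / n) (div_pos hε' hnp)
  -- the finite volume inequality after the average over k
  set T : ℕ → ℝ := fun N => ∑ w ∈ W, ∑ r ∈ Finset.range R, C * ρ ^ r *
    ((∑ y ∈ cube w ((K * (r + 1) : ℕ) : ℤ), ∑ k ∈ Finset.Icc 1 n,
        PE x s (boxE d N) (far (ds k y) y)) *
      (C₁ * Real.exp (δ * ((K * (r + 1) : ℕ) : ℝ)) *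
        ∑ e ∈ edg (cube w (((K * (r + 1) : ℕ) : ℤ) + C₁)), PE x s (boxE d N) (pv n e))) + ε' with hT
  have hfin : ∀ᶠ N in atTop, (n : ℝ) * (PE x s (boxE d N) (far n 0) *
      (1 - PE x s (boxE d N) (far n 0))) ≤ T N := by
    have h3 : ∀ᶠ N in atTop, ∀ w ∈ W, ∀ r ∈ Finset.range R,
        PE x s (boxE d N) (em n (K * (r + 1)) w) ≤
          C₁ * Real.exp (δ * ((K * (r + 1) : ℕ) : ℝ)) *
            ∑ e ∈ edg (cube w (((K * (r + 1) : ℕ) : ℤ) + C₁)), PE x s (boxE d N) (pv n e) :=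
      (Finset.eventually_all W).2 fun w _ => (Finset.eventually_all _).2 fun r _ =>
        h2 s hs n (K * (r + 1)) w
    filter_upwards [h1, h3] with N hN1 hN3
    have h4 : ∑ k ∈ Finset.Icc 1 n, (PE x s (boxE d N) (far n 0) *
        (1 - PE x s (boxE d N) (far n 0))) ≤ ∑ k ∈ Finset.Icc 1 n, (∑ w ∈ W,
          ∑ r ∈ Finset.range R, C * ρ ^ r * (PE x s (boxE d N) (hb k (K * (r + 1)) w) *
            PE x s (boxE d N) (em n (K * (r + 1)) w)) + ε' / n) := by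
      refine Finset.sum_le_sum fun k hk => (hN1 k hk).trans ?_
      refine add_le_add (Finset.sum_le_sum fun w _ => Finset.sum_le_sum fun r _ => ?_) le_rfl
      refine mul_le_mul_of_nonneg_right ?_ (mul_nonneg ?_ ?_)
      · exact mul_le_mul_of_nonneg_left (pow_le_pow_left₀ hρ₀ (le_max_left _ _) r) hC
      · exact PE_nonneg x hx s hs0 hs1 _ _ fun η b _ _ => ind_nonneg _
      · exact PE_nonneg x hx s hs0 hs1 _ _ fun η b _ _ => ind_nonneg _
    rw [Finset.sum_const, nsmul_eq_mul, Nat.card_Icc, Nat.add_sub_cancel, Finset.sum_add_distrib,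
      Finset.sum_const, nsmul_eq_mul, Nat.card_Icc, Nat.add_sub_cancel,
      mul_div_cancel₀ _ hnp.ne'] at h4
    refine h4.trans ?_
    rw [hT]
    simp only
    refine add_le_add ?_ le_rfl
    rw [Finset.sum_comm]
    refine Finset.sum_le_sum fun w hw => ?_
    rw [Finset.sum_comm]
    refine Finset.sum_le_sum fun r hr => ?_
    rw [← Finset.mul_sum, ← Finset.sum_mul]
    refine mul_le_mul_of_nonneg_left ?_ (mul_nonneg hC (pow_nonneg hρ.le _))
    have h5 : ∑ k ∈ Finset.Icc 1 n, PE x s (boxE d N) (hb k (K * (r + 1)) w) ≤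
        ∑ y ∈ cube w ((K * (r + 1) : ℕ) : ℤ), ∑ k ∈ Finset.Icc 1 n,
          PE x s (boxE d N) (far (ds k y) y) := by
      rw [Finset.sum_comm]
      refine Finset.sum_le_sum fun k _ => ?_
      rw [← PE_sum]
      exact PE_mono x hx s hs0 hs1 _ _ _ fun η b _ _ => hb_le hd k (K * (r + 1)) w η b
    refine mul_le_mul h5 (hN3 w hw r hr) ?_ ?_
    · exact PE_nonneg x hx s hs0 hs1 _ _ fun η b _ _ => ind_nonneg _
    · exact Finset.sum_nonneg fun y _ => Finset.sum_nonneg fun k _ =>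
        PE_nonneg x hx s hs0 hs1 _ _ fun η b _ _ => far_nonneg _ _ _ _
  -- the limit
  set L : ℝ := ∑ w ∈ W, ∑ r ∈ Finset.range R, C * ρ ^ r *
    ((∑ y ∈ cube w ((K * (r + 1) : ℕ) : ℤ), ∑ k ∈ Finset.Icc 1 n, th d x s (ds k y)) *
      (C₁ * Real.exp (δ * ((K * (r + 1) : ℕ) : ℝ)) *
        ∑ e ∈ edg (cube w (((K * (r + 1) : ℕ) : ℤ) + C₁)), PI x s (pv n e))) + ε' with hL
  have hTL : Tendsto T atTop (nhds L) := by
    refine Tendsto.add_const _ (tendsto_finsetSum _ fun w _ => tendsto_finsetSum _ fun r _ => ?_)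
    refine Tendsto.const_mul _ (Tendsto.mul ?_ (Tendsto.const_mul _ ?_))
    · exact tendsto_finsetSum _ fun y _ => tendsto_finsetSum _ fun k _ =>
        far_tend hd x hx hx1 s (ds k y) y
    · exact tendsto_finsetSum _ fun e _ => PI_tend x hx hx1 s _ _ (pv_loc n hn1 e)
  have hlim : Tendsto (fun N => (n : ℝ) * (PE x s (boxE d N) (far n 0) *
      (1 - PE x s (boxE d N) (far n 0)))) atTop (nhds ((n : ℝ) * (th d x s n *
        (1 - th d x s n)))) := by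
    have h3 := far_tend hd x hx hx1 s n (0 : Vx d)
    exact (h3.mul (h3.const_sub 1)).const_mul _
  have hle : (n : ℝ) * (th d x s n * (1 - th d x s n)) ≤ L :=
    le_of_tendsto_of_tendsto hlim hTL hfin
  refine hle.trans ?_
  rw [hL]
  refine add_le_add ?_ le_rfl
  -- bound of the limit
  have h5 : ∀ w ∈ W, ∀ r ∈ Finset.range R, C * ρ ^ r *
      ((∑ y ∈ cube w ((K * (r + 1) : ℕ) : ℤ), ∑ k ∈ Finset.Icc 1 n, th d x s (ds k y)) *
        (C₁ * Real.exp (δ * ((K * (r + 1) : ℕ) : ℝ)) *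
          ∑ e ∈ edg (cube w (((K * (r + 1) : ℕ) : ℤ) + C₁)), PI x s (pv n e))) ≤
      2 * S * C * C₁ * (ρ ^ r * ((2 * ((K * (r + 1) : ℕ) : ℝ) + 1) ^ d *
        Real.exp (δ * ((K * (r + 1) : ℕ) : ℝ)))) *
          ∑ e ∈ edg (cube w ((K * (r + 1) + C₁ : ℕ) : ℤ)), PI x s (pv n e) := by
    intro w _ r _
    have h6 : ∑ y ∈ cube w ((K * (r + 1) : ℕ) : ℤ), ∑ k ∈ Finset.Icc 1 n, th d x s (ds k y) ≤
        (2 * ((K * (r + 1) : ℕ) : ℝ) + 1) ^ d * (2 * S) := by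
      have h7 : ∀ y ∈ cube w ((K * (r + 1) : ℕ) : ℤ),
          ∑ k ∈ Finset.Icc 1 n, th d x s (ds k y) ≤ 2 * S := fun y _ =>
        sum_dist_le (fun k => th d x s k) (th_anti hd x hx hx1 s hs0 hs1)
          (fun k => th_nonneg x hx hx1 s hs0 hs1 k) n (nm y)
      refine (Finset.sum_le_sum h7).trans ?_
      rw [Finset.sum_const, nsmul_eq_mul, card_cube_nat]
      push_cast
      exact le_rfl
    have h7 : edg (cube w (((K * (r + 1) : ℕ) : ℤ) + C₁)) =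
        edg (cube w ((K * (r + 1) + C₁ : ℕ) : ℤ)) := by
      push_cast
      rfl
    rw [h7]
    set P : ℝ := ∑ e ∈ edg (cube w ((K * (r + 1) + C₁ : ℕ) : ℤ)), PI x s (pv n e) with hP
    have hP0 : 0 ≤ P := Finset.sum_nonneg fun e _ => hpvn e
    have h8 := mul_le_mul_of_nonneg_right h6
      (show 0 ≤ C₁ * Real.exp (δ * ((K * (r + 1) : ℕ) : ℝ)) * P by positivity)
    have h9 := mul_le_mul_of_nonneg_left h8 (mul_nonneg hC (pow_nonneg hρ.le r))
    refine h9.trans (le_of_eq ?_)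
    ring
  refine (Finset.sum_le_sum fun w hw => Finset.sum_le_sum (h5 w hw)).trans ?_
  rw [Finset.sum_comm]
  have h6 : ∀ r ∈ Finset.range R, ∑ w ∈ W, 2 * S * C * C₁ * (ρ ^ r *
      ((2 * ((K * (r + 1) : ℕ) : ℝ) + 1) ^ d * Real.exp (δ * ((K * (r + 1) : ℕ) : ℝ)))) *
        ∑ e ∈ edg (cube w ((K * (r + 1) + C₁ : ℕ) : ℤ)), PI x s (pv n e) ≤
      2 * S * C * C₁ * G * (ρ ^ r * ((2 * ((K * (r + 1) : ℕ) : ℝ) + 1) ^ d *
        (Real.exp (δ * ((K * (r + 1) : ℕ) : ℝ)) *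
          (2 * ((K * (r + 1) + C₁ : ℕ) : ℝ) + 1) ^ d))) := by
    intro r _
    rw [← Finset.mul_sum]
    have h7 := sum_edg_le (fun e => PI x s (pv n e)) hpvn (boxE d n)
      (fun e he => PI_pv_off x hx hx1 s n hn1 e he) W (K * (r + 1) + C₁)
    have h8 := mul_le_mul_of_nonneg_left h7 (show 0 ≤ 2 * S * C * C₁ * (ρ ^ r *
      ((2 * ((K * (r + 1) : ℕ) : ℝ) + 1) ^ d * Real.exp (δ * ((K * (r + 1) : ℕ) : ℝ)))) by
        positivity)
    refine h8.trans (le_of_eq ?_)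
    ring
  refine (Finset.sum_le_sum h6).trans ?_
  rw [← Finset.mul_sum]
  have h7 := mul_le_mul_of_nonneg_left (hQ R) (show 0 ≤ 2 * S * C * C₁ * G by positivity)
  refine h7.trans ?_
  have h8 : 0 ≤ S * G := mul_nonneg hS0 hG0
  nlinarith

end Pool.Agent.Inv
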