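import Pool.Agent.Inv.Lim
import Pool.Agent.Glu.Stmt
import Pool.Agent.S1.Ifc

/-! Adapters for the gluing lemma. -/

set_option autoImplicit false

namespace Pool.Agent.Inv

open Finset Filter Pool.Agent.SRC Pool.Agent.Glu

variable {d : ℕ}

theorem ev_box (v : Vx d) (m C : ℕ) : ∀ᶠ N : ℕ in atTop, ∀ i, |v i| + (m : ℤ) + C ≤ N := by
  filter_upwards [eventually_ge_atTop (nm v + m + C)] with N hN
  intro i
  have h1 := le_nm v i
  rw [Int.abs_eq_natAbs]
  omega

theorem H2_of_gluing (x : ℝ) (a b : ℝ) (ha : 0 < a) (ha1 : a < 1) (hb : b ≤ 1)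
    (h : Gluing d x) : H2 d x a b := by
  intro δ hδ
  obtain ⟨C, hC⟩ := h a δ ha ha1 hδ
  refine ⟨C, fun s hs n m v => ?_⟩
  filter_upwards [ev_box v m C] with N hN
  exact hC s hs.1 (hs.2.trans hb) n m v N hN

theorem H2_of_GLUE (x : ℝ) (a b : ℝ) (ha : 0 < a) (hab : a < b) (hb : b < 1)
    (h : S1.GLUE d x) : H2 d x a b := by
  intro δ hδ
  obtain ⟨C, hC⟩ := h a b δ ha hab hb hδ
  refine ⟨C, fun s hs n m v => ?_⟩
  filter_upwards [ev_box v m C] with N hN
  have h1 := hC s hs n m N v hN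
  have h2 : (fun η b : Finset (Ed d) => ind (S1.Em n m v (↑(η ∪ b) : Set (Ed d)))) = em n m v := by
    funext η b
    apply ind_congr
    unfold S1.Em S1.BB
    refine and_congr Iff.rfl (and_congr ?_ ?_)
    · exact exists_congr fun u => and_congr (mem_cube v m u).symm Iff.rfl
    · exact exists_congr fun u => and_congr (mem_cube v m u).symm Iff.rfl
  rw [h2] at h1
  exact h1

end Pool.Agent.Inv
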