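import Pool.Agent.Inv.Theta

/-! Upper bound for the one-arm probability, connections to spheres, finite volume approximation. -/

set_option autoImplicit false

namespace Pool.Agent.Inv

open Finset Filter Pool.Agent.SRC

variable {d : ℕ}

/-- The edges at the origin. -/
noncomputable def star0 (d : ℕ) : Finset (Ed d) :=
  (Finset.univ.image fun i : Fin d => ((0 : Vx d), i)) ∪
    (Finset.univ.image fun i : Fin d => ((-uv i : Vx d), i))

theorem star0_card (d : ℕ) : (star0 d).card ≤ 2 * d := by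
  unfold star0
  refine (Finset.card_union_le _ _).trans ?_
  have h1 := (Finset.card_image_le (s := (Finset.univ : Finset (Fin d)))
    (f := fun i : Fin d => (((0 : Vx d), i) : Ed d)))
  have h2 := (Finset.card_image_le (s := (Finset.univ : Finset (Fin d)))
    (f := fun i : Fin d => (((-uv i : Vx d), i) : Ed d)))
  rw [Finset.card_univ, Fintype.card_fin] at h1 h2
  omega

theorem star0_conn (ω : Finset (Ed d)) (h : ω ∩ star0 d = ∅) (v : Vx d)
    (hv : conn (↑ω : Set (Ed d)) 0 v) : v = 0 := by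
  unfold conn at hv
  induction hv with
  | refl => rfl
  | @tail p q _ h2 ih =>
    exfalso
    obtain ⟨i, ⟨h3, _⟩ | ⟨h3, h4⟩⟩ := h2
    · have h5 : (p, i) ∈ ω ∩ star0 d := by
        rw [mem_inter]
        refine ⟨h3, ?_⟩
        unfold star0
        rw [mem_union, mem_image]
        left
        exact ⟨i, mem_univ _, by rw [ih]⟩
      rw [h] at h5
      exact absurd h5 (notMem_empty _)
    · have h5 : (q, i) ∈ ω ∩ star0 d := by
        rw [mem_inter]
        refine ⟨h3, ?_⟩
        unfold star0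
        rw [mem_union, mem_image, mem_image]
        right
        refine ⟨i, mem_univ _, ?_⟩
        have h6 : q = -uv i := by
          rw [ih] at h4
          exact eq_neg_of_add_eq_zero_left h4.symm
        rw [h6]
      rw [h] at h5
      exact absurd h5 (notMem_empty _)

theorem one_sub_th (x : ℝ) (hx : 0 ≤ x) (hx1 : x ≤ 1) (s : ℝ) (hs : 0 ≤ s)
    (hs1 : s ≤ 1) (n : ℕ) (hn : 1 ≤ n) :
    ((1 - s) / (1 + x)) ^ (2 * d) ≤ 1 - th d x s n := by
  classical
  set g : Finset (Ed d) → Finset (Ed d) → ℝ := fun η b =>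
    ind (η ∩ star0 d = ∅ ∧ b ∩ star0 d = ∅) with hg
  have hgl : Loc (star0 d) g := by
    intro η b
    simp only [hg]
    rw [inter_assoc, inter_self, inter_assoc, inter_self]
  have hg1 : Loc (star0 d) fun η b => 1 + (-1) * g η b := by
    have := (Loc.const (star0 d) (1 : ℝ)).add (hgl.smul (-1))
    rwa [union_self] at this
  have h1 : th d x s n ≤ PI x s fun η b => 1 + (-1) * g η b := by
    refine PI_mono x hx hx1 s hs hs1 (boxE d n) (star0 d) _ _ (far_loc n hn) hg1 fun η b => ?_
    simp only [hg]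
    by_cases h2 : η ∩ star0 d = ∅ ∧ b ∩ star0 d = ∅
    · have h3 : far n 0 η b = 0 := by
        refine ind_false ?_
        rintro ⟨w, h4, i, h5⟩
        have h6 : (η ∪ b) ∩ star0 d = ∅ := by
          rw [union_inter_distrib_right, h2.1, h2.2, empty_union]
        rw [star0_conn _ h6 w h4] at h5
        simp at h5
        omega
      rw [h3, ind_true h2]
      norm_num
    · rw [ind_false h2]
      have := far_le_one n 0 η b
      linarith
  have h2 : PI x s (fun η b => 1 + (-1) * g η b) = 1 - PI x s g := by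
    rw [PI_add x hx hx1 s (star0 d) (star0 d) _ _ (Loc.const _ 1) (hgl.smul (-1)),
      PI_smul x hx hx1 s (-1) (star0 d) g hgl, PI_const x hx hx1]
    ring
  have h3 : ((1 - s) / (1 + x)) ^ (2 * d) ≤ PI x s g := by
    rw [PI_eq x hx hx1 s (star0 d) g hgl]
    have h4 : qL x (star0 d) ∅ * EB s (star0 d) (g ∅) ≤
        ∑ η ∈ (star0 d).powerset, qL x (star0 d) η * EB s (star0 d) (g η) := by
      refine Finset.single_le_sum (f := fun η => qL x (star0 d) η * EB s (star0 d) (g η))
        (fun η _ => mul_nonneg (qL_nonneg x hx hx1 _ _) ?_) (empty_mem_powerset _)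
      have := EB_mono s hs hs1 (star0 d) (fun _ => 0) (g η) fun b _ => ind_nonneg _
      rwa [EB_const] at this
    refine le_trans ?_ h4
    have h5 : (1 - s) ^ (star0 d).card ≤ EB s (star0 d) (g ∅) := by
      unfold EB
      have h6 := Finset.single_le_sum (f := fun b : Finset (Ed d) =>
        s ^ b.card * (1 - s) ^ (star0 d \ b).card * g ∅ b)
        (fun b _ => mul_nonneg (mul_nonneg (pow_nonneg hs _) (pow_nonneg (by linarith) _))
          (ind_nonneg _)) (empty_mem_powerset (star0 d))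
      refine le_trans (le_of_eq ?_) h6
      simp only [hg]
      rw [ind_true ⟨empty_inter _, empty_inter _⟩, card_empty, pow_zero, sdiff_empty]
      ring
    have h6 : (1 / (1 + x)) ^ (star0 d).card ≤ qL x (star0 d) ∅ := by
      unfold qL
      have h7 : bd (∅ : Finset (Ed d)) = 0 := sum_empty
      rw [h7, cl_zero x hx, card_empty, pow_zero, one_mul, div_pow, one_pow]
      have h8 := den_pos x hx hx1 (star0 d)
      refine one_div_le_one_div_of_le (by linarith) ?_
      have h9 : ∑ ζ ∈ (star0 d).powerset, x ^ ζ.card * cl x (star0 d) (bd ζ) ≤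
          ∑ ζ ∈ (star0 d).powerset, x ^ ζ.card * 1 ^ ((star0 d).card - ζ.card) := by
        refine Finset.sum_le_sum fun ζ _ => ?_
        rw [one_pow]
        exact mul_le_mul_of_nonneg_left (cl_le x hx hx1 _ _) (pow_nonneg hx _)
      refine h9.trans (le_of_eq ?_)
      rw [Finset.sum_pow_mul_eq_add_pow, add_comm]
    have h7 : 0 ≤ (1 - s) / (1 + x) := div_nonneg (by linarith) (by linarith)
    have h8 : (1 - s) / (1 + x) ≤ 1 := by
      rw [div_le_one (by linarith)]
      linarith
    calc ((1 - s) / (1 + x)) ^ (2 * d) ≤ ((1 - s) / (1 + x)) ^ (star0 d).card :=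
          pow_le_pow_of_le_one h7 h8 (star0_card d)
      _ = (1 / (1 + x)) ^ (star0 d).card * (1 - s) ^ (star0 d).card := by
          rw [← mul_pow]
          congr 1
          ring
      _ ≤ _ := mul_le_mul h6 h5 (pow_nonneg (by linarith) _) (qL_nonneg x hx hx1 _ _)
  linarith [h1.trans h2.le]

/-! ### Spheres -/

/-- The sup norm. -/
def nm (v : Vx d) : ℕ := Finset.univ.sup fun i => (v i).natAbs

theorem le_nm (v : Vx d) (i : Fin d) : (v i).natAbs ≤ nm v :=
  Finset.le_sup (f := fun i => (v i).natAbs) (Finset.mem_univ i)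

theorem nm_att (hd : 1 ≤ d) (v : Vx d) : ∃ i, (v i).natAbs = nm v := by
  have h : (Finset.univ : Finset (Fin d)).Nonempty := ⟨⟨0, by omega⟩, mem_univ _⟩
  obtain ⟨i, _, hi⟩ := Finset.exists_mem_eq_sup _ h fun i => (v i).natAbs
  exact ⟨i, hi.symm⟩

/-- Indicator of the event that `v` is joined in `η ∪ b` to the sphere of radius `k` round the origin. -/
noncomputable def hit (k : ℕ) (v : Vx d) (η b : Finset (Ed d)) : ℝ :=
  ind (∃ w, conn (↑(η ∪ b) : Set (Ed d)) v w ∧ nm w = k)

theorem hit_le_far (hd : 1 ≤ d) (k : ℕ) (v : Vx d) (η b : Finset (Ed d)) :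
    hit k v η b ≤ far ((k - nm v) + (nm v - k)) v η b := by
  refine ind_mono ?_
  rintro ⟨w, h1, rfl⟩
  refine ⟨w, h1, ?_⟩
  rcases le_total (nm v) (nm w) with h2 | h2
  · obtain ⟨i, hi⟩ := nm_att hd w
    refine ⟨i, ?_⟩
    have h3 := le_nm v i
    have h4 : nm w - nm v + (nm v - nm w) = nm w - nm v := by omega
    rw [h4, Int.abs_eq_natAbs]
    omega
  · obtain ⟨i, hi⟩ := nm_att hd v
    refine ⟨i, ?_⟩
    have h3 := le_nm w i
    have h4 : nm w - nm v + (nm v - nm w) = nm v - nm w := by omega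
    rw [h4, Int.abs_eq_natAbs]
    omega

/-- Sums over spheres. -/
theorem sum_dist_le (f : ℕ → ℝ) (hf : Antitone f) (h0 : ∀ k, 0 ≤ f k) (n j : ℕ) :
    ∑ k ∈ Finset.Icc 1 n, f ((k - j) + (j - k)) ≤ 2 * ∑ k ∈ Finset.range n, f k := by
  classical
  have h1 : ∑ k ∈ Finset.Icc 1 n, f ((k - j) + (j - k)) ≤
      ∑ k ∈ (Finset.Icc 1 n).filter (fun k => j ≤ k), f (k - max j 1) +
        ∑ k ∈ (Finset.Icc 1 n).filter (fun k => ¬ j ≤ k), f (min j n - k) := by
    rw [← Finset.sum_filter_add_sum_filter_not (Finset.Icc 1 n) (fun k => j ≤ k)]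
    refine add_le_add (Finset.sum_le_sum fun k hk => ?_) (Finset.sum_le_sum fun k hk => ?_)
    · rw [mem_filter, Finset.mem_Icc] at hk
      exact hf (by omega)
    · rw [mem_filter, Finset.mem_Icc] at hk
      exact hf (by omega)
  have h2 : ∑ k ∈ (Finset.Icc 1 n).filter (fun k => j ≤ k), f (k - max j 1) ≤
      ∑ k ∈ Finset.range n, f k := by
    rw [← Finset.sum_image (f := f) (g := fun k => k - max j 1)]
    · refine Finset.sum_le_sum_of_subset_of_nonneg ?_ fun k _ _ => h0 k
      intro m hm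
      rw [mem_image] at hm
      obtain ⟨k, hk, rfl⟩ := hm
      rw [mem_filter, Finset.mem_Icc] at hk
      rw [mem_range]
      omega
    · intro k hk k' hk' h
      simp only [Finset.coe_filter, Finset.mem_Icc, Set.mem_ofPred_eq] at hk hk'
      simp only at h
      omega
  have h3 : ∑ k ∈ (Finset.Icc 1 n).filter (fun k => ¬ j ≤ k), f (min j n - k) ≤
      ∑ k ∈ Finset.range n, f k := by
    rw [← Finset.sum_image (f := f) (g := fun k => min j n - k)]
    · refine Finset.sum_le_sum_of_subset_of_nonneg ?_ fun k _ _ => h0 k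
      intro m hm
      rw [mem_image] at hm
      obtain ⟨k, hk, rfl⟩ := hm
      rw [mem_filter, Finset.mem_Icc] at hk
      rw [mem_range]
      omega
    · intro k hk k' hk' h
      simp only [Finset.coe_filter, Finset.mem_Icc, Set.mem_ofPred_eq] at hk hk'
      simp only at h
      omega
  linarith

/-! ### Finite volume approximation -/

theorem nm_finite (R : ℕ) : {v : Vx d | nm v ≤ R}.Finite := by
  refine Set.Finite.subset (Finset.finite_toSet (Finset.Icc (fun _ => -(R : ℤ)) fun _ => (R : ℤ)))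
    fun v hv => ?_
  rw [Finset.mem_coe, Finset.mem_Icc]
  have h1 : nm v ≤ R := hv
  constructor
  · intro i
    have := le_nm v i
    show -(R : ℤ) ≤ v i
    omega
  · intro i
    have := le_nm v i
    show v i ≤ (R : ℤ)
    omega

theorem far_tend (hd : 1 ≤ d) (x : ℝ) (hx : 0 ≤ x) (hx1 : x ≤ 1) (s : ℝ) (m : ℕ) (v : Vx d) :
    Tendsto (fun N => PE x s (boxE d N) (far m v)) atTop (nhds (th d x s m)) := by
  rw [← PI_far hd x hx hx1 s m v]
  rcases Nat.eq_zero_or_pos m with rfl | hm
  · have h1 : far 0 v = fun _ _ : Finset (Ed d) => (1 : ℝ) := by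
      funext η b
      exact far_zero hd v η b
    rw [h1]
    exact PI_tend x hx hx1 s ∅ _ (Loc.const ∅ 1)
  · exact PI_tend x hx hx1 s _ _ (far_loc_v m hm v)

theorem far_approx (hd : 1 ≤ d) (x : ℝ) (hx : 0 ≤ x) (hx1 : x ≤ 1) (s : ℝ) (R : ℕ) (ε : ℝ)
    (hε : 0 < ε) : ∀ᶠ N in atTop, ∀ v : Vx d, nm v ≤ R → ∀ m ≤ R,
      |PE x s (boxE d N) (far m v) - th d x s m| < ε := by
  have h1 : ∀ v ∈ {v : Vx d | nm v ≤ R}, ∀ᶠ N in atTop, ∀ m ≤ R,
      |PE x s (boxE d N) (far m v) - th d x s m| < ε := by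
    intro v _
    have h2 : ∀ m ∈ {m : ℕ | m ≤ R}, ∀ᶠ N in atTop,
        |PE x s (boxE d N) (far m v) - th d x s m| < ε := by
      intro m _
      have := (far_tend hd x hx hx1 s m v).eventually (Metric.ball_mem_nhds _ hε)
      filter_upwards [this] with N hN
      rwa [Real.dist_eq] at hN
    exact (Set.finite_le_nat R).eventually_all.2 h2
  exact (nm_finite R).eventually_all.2 h1

theorem pv_approx (x : ℝ) (hx : 0 ≤ x) (hx1 : x ≤ 1) (s : ℝ) (n : ℕ) (hn : 1 ≤ n) (ε : ℝ)
    (hε : 0 < ε) : ∀ᶠ N in atTop, ∀ e ∈ boxE d n,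
      |PE x s (boxE d N) (pv n e) - PI x s (pv n e)| < ε := by
  refine (Finset.eventually_all (boxE d n)).2 fun e _ => ?_
  have := (PI_tend x hx hx1 s _ _ (pv_loc n hn e)).eventually (Metric.ball_mem_nhds _ hε)
  filter_upwards [this] with N hN
  rwa [Real.dist_eq] at hN

end Pool.Agent.Inv
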