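import Pool.Agent.SRC.Inf
import Pool.Agent.TC.Lim

/-! The pair (loop O(1) model, Bernoulli percolation) on finite edge sets and its infinite volume limit. -/

set_option autoImplicit false

namespace Pool.Agent.Inv

open Finset Filter Pool.Agent.SRC

variable {d : ℕ}

/-- Expectation of `f η b`: `η` the loop O(1) model with parameter `x` on `E`, `b` Bernoulli percolation with
parameter `s` on `E`, independent. -/
noncomputable def PE (x s : ℝ) (E : Finset (Ed d)) (f : Finset (Ed d) → Finset (Ed d) → ℝ) : ℝ :=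
  EL (loopM x) E 0 (fun η => EB s E (f η)) / ZZ (loopM x) E 0

/-- `f` depends only on the edges of `F`. -/
def Loc (F : Finset (Ed d)) (f : Finset (Ed d) → Finset (Ed d) → ℝ) : Prop :=
  ∀ η b, f η b = f (η ∩ F) (b ∩ F)

/-- The infinite volume limit. -/
noncomputable def PI (x s : ℝ) (f : Finset (Ed d) → Finset (Ed d) → ℝ) : ℝ :=
  limUnder atTop (fun N => PE x s (boxE d N) f)

/-- The normalised correlation off `F`. -/
noncomputable def co (x : ℝ) (F : Finset (Ed d)) (B : Vx d → ZMod 2)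
    (E : Finset (Ed d)) : ℝ := ZZ (loopM x) (E \ F) B / ZZ (loopM x) (E \ F) 0

/-- Its limit. -/
noncomputable def cl (x : ℝ) (F : Finset (Ed d)) (B : Vx d → ZMod 2) : ℝ := ⨆ S, co x F B S

theorem co_mono (x : ℝ) (hx : 0 ≤ x) (hx1 : x ≤ 1) (F : Finset (Ed d))
    (B : Vx d → ZMod 2) {E E' : Finset (Ed d)} (h : E ⊆ E') : co x F B E ≤ co x F B E' := by
  have h1 := ZZ_zero_ge x hx (E \ F)
  have h2 := ZZ_zero_ge x hx (E' \ F)
  unfold co
  rw [div_le_div_iff₀ (by linarith) (by linarith)]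
  exact cor_mono x hx hx1 (E \ F) (E' \ F) (sdiff_subset_sdiff h (le_refl _)) B

theorem co_le (x : ℝ) (hx : 0 ≤ x) (hx1 : x ≤ 1) (F : Finset (Ed d))
    (B : Vx d → ZMod 2) (E : Finset (Ed d)) : co x F B E ≤ 1 := by
  have h1 := ZZ_zero_ge x hx (E \ F)
  unfold co
  rw [div_le_one (by linarith)]
  exact ZZ_le_zero x hx hx1 _ B

theorem co_nn (x : ℝ) (hx : 0 ≤ x) (F : Finset (Ed d))
    (B : Vx d → ZMod 2) (E : Finset (Ed d)) : 0 ≤ co x F B E := by
  unfold co
  have h0 : 0 ≤ (loopM x).a := hx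
  have h1 : 0 ≤ (loopM x).b := zero_le_one
  exact div_nonneg (ZZ_nonneg _ h0 h1 _ _) (ZZ_nonneg _ h0 h1 _ _)

theorem co_zero (x : ℝ) (hx : 0 ≤ x) (F E : Finset (Ed d)) : co x F 0 E = 1 := by
  have h1 := ZZ_zero_ge x hx (E \ F)
  unfold co
  exact div_self (by linarith)

theorem co_bdd (x : ℝ) (hx : 0 ≤ x) (hx1 : x ≤ 1) (F : Finset (Ed d))
    (B : Vx d → ZMod 2) : BddAbove (Set.range (co x F B)) := by
  refine ⟨1, ?_⟩
  rintro _ ⟨E, rfl⟩
  exact co_le x hx hx1 F B E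

theorem cl_nn (x : ℝ) (hx : 0 ≤ x) (hx1 : x ≤ 1) (F : Finset (Ed d)) (B : Vx d → ZMod 2) :
    0 ≤ cl x F B := (co_nn x hx F B ∅).trans (le_ciSup (co_bdd x hx hx1 F B) ∅)

theorem cl_le (x : ℝ) (hx : 0 ≤ x) (hx1 : x ≤ 1) (F : Finset (Ed d)) (B : Vx d → ZMod 2) :
    cl x F B ≤ 1 := ciSup_le fun S => co_le x hx hx1 F B S

theorem cl_zero (x : ℝ) (hx : 0 ≤ x) (F : Finset (Ed d)) : cl x F 0 = 1 := by
  unfold cl
  simp only [co_zero x hx]
  exact ciSup_const

theorem exh (E : ℕ → Finset (Ed d)) (hm : Monotone E)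
    (he : ∀ e, ∃ L, e ∈ E L) (S : Finset (Ed d)) : ∃ L, S ⊆ E L := by
  classical
  induction S using Finset.induction_on with
  | empty => exact ⟨0, empty_subset _⟩
  | insert e s _ ih =>
    obtain ⟨L1, h1⟩ := ih
    obtain ⟨L2, h2⟩ := he e
    refine ⟨max L1 L2, ?_⟩
    rw [insert_subset_iff]
    exact ⟨hm (le_max_right _ _) h2, h1.trans (hm (le_max_left _ _))⟩

theorem co_tend (x : ℝ) (hx : 0 ≤ x) (hx1 : x ≤ 1) (F : Finset (Ed d))
    (B : Vx d → ZMod 2) (E : ℕ → Finset (Ed d)) (hm : Monotone E) (he : ∀ e, ∃ L, e ∈ E L) :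
    Tendsto (fun L => co x F B (E L)) atTop (nhds (cl x F B)) := by
  refine tendsto_atTop_isLUB (fun a b hab => co_mono x hx hx1 F B (hm hab)) ⟨?_, ?_⟩
  · rintro _ ⟨L, rfl⟩
    exact le_ciSup (co_bdd x hx hx1 F B) (E L)
  · intro u hu
    refine ciSup_le fun S => ?_
    obtain ⟨L, hL⟩ := exh E hm he S
    exact (co_mono x hx hx1 F B hL).trans (hu ⟨L, rfl⟩)

theorem ZZ_split (x : ℝ) (E F : Finset (Ed d)) (hF : F ⊆ E) :
    ZZ (loopM x) E 0 = ∑ η ∈ F.powerset, x ^ η.card * ZZ (loopM x) (E \ F) (bd η) := by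
  have h1 : E = F ∪ (E \ F) := (union_sdiff_of_subset hF).symm
  conv_lhs => rw [h1]
  rw [ZZ, EL_union _ F (E \ F) disjoint_sdiff]
  refine Finset.sum_congr rfl fun η _ => ?_
  show (x ^ η.card * 1 ^ (F \ η).card) * EL (loopM x) (E \ F) (0 + (1 : ZMod 2) • bd η)
    (fun _ => 1) = _
  rw [one_pow, mul_one, one_smul, zero_add]
  rfl

/-- Local events in terms of the boundary correlations. -/
theorem EL_loc (x s : ℝ) (E F : Finset (Ed d)) (hF : F ⊆ E)
    (f : Finset (Ed d) → Finset (Ed d) → ℝ) (hf : Loc F f) :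
    EL (loopM x) E 0 (fun η => EB s E (f η)) =
      ∑ η ∈ F.powerset, x ^ η.card * ZZ (loopM x) (E \ F) (bd η) * EB s F (f η) := by
  have h1 : E = F ∪ (E \ F) := (union_sdiff_of_subset hF).symm
  have h2 : EL (loopM x) E 0 (fun η => EB s E (f η)) =
      EL (loopM x) (F ∪ (E \ F)) 0 (fun η => EB s E (f η)) := by rw [← h1]
  rw [h2, EL_union _ F (E \ F) disjoint_sdiff]
  refine Finset.sum_congr rfl fun η hη => ?_
  rw [mem_powerset] at hη
  have h3 : EL (loopM x) (E \ F) (0 + (loopM x).s • bd η) (fun ζ => EB s E (f (η ∪ ζ))) =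
      EL (loopM x) (E \ F) (0 + (loopM x).s • bd η) (fun _ => EB s F (f η)) := by
    refine EL_congr _ _ _ _ _ fun ζ hζ => ?_
    have h4 : ∀ b, f (η ∪ ζ) b = f η (b ∩ F) := by
      intro b
      rw [hf (η ∪ ζ) b, hf η (b ∩ F)]
      congr 1
      · ext e
        simp only [mem_inter, mem_union]
        constructor
        · rintro ⟨h5 | h5, h6⟩
          · exact ⟨h5, h6⟩
          · exact absurd h6 (mem_sdiff.1 (hζ h5)).2
        · rintro ⟨h5, h6⟩
          exact ⟨Or.inl h5, h6⟩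
      · rw [inter_assoc, inter_self]
    rw [EB_congr s E _ (fun b => f η (b ∩ F)) fun b _ => h4 b]
    exact EB_restrict s E F hF (f η)
  rw [h3, EL_const]
  show (x ^ η.card * 1 ^ (F \ η).card) * (EB s F (f η) * ZZ (loopM x) (E \ F)
    (0 + (1 : ZMod 2) • bd η)) = _
  rw [one_pow, mul_one, one_smul, zero_add]
  ring

/-- Weight of `η` in the limit on `F`. -/
noncomputable def qL (x : ℝ) (F η : Finset (Ed d)) : ℝ :=
  x ^ η.card * cl x F (bd η) / ∑ ζ ∈ F.powerset, x ^ ζ.card * cl x F (bd ζ)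

theorem den_pos (x : ℝ) (hx : 0 ≤ x) (hx1 : x ≤ 1) (F : Finset (Ed d)) :
    1 ≤ ∑ ζ ∈ F.powerset, x ^ ζ.card * cl x F (bd ζ) := by
  have h1 : x ^ (∅ : Finset (Ed d)).card * cl x F (bd (∅ : Finset (Ed d))) = 1 := by
    have h2 : bd (∅ : Finset (Ed d)) = 0 := sum_empty
    rw [card_empty, pow_zero, one_mul, h2, cl_zero x hx]
  rw [← h1]
  exact Finset.single_le_sum (f := fun η : Finset (Ed d) => x ^ η.card * cl x F (bd η))
    (fun η _ => mul_nonneg (pow_nonneg hx _) (cl_nn x hx hx1 F _)) (empty_mem_powerset F)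

theorem qL_nonneg (x : ℝ) (hx : 0 ≤ x) (hx1 : x ≤ 1) (F η : Finset (Ed d)) : 0 ≤ qL x F η := by
  have h1 := den_pos x hx hx1 F
  exact div_nonneg (mul_nonneg (pow_nonneg hx _) (cl_nn x hx hx1 F _)) (by linarith)

theorem qL_sum (x : ℝ) (hx : 0 ≤ x) (hx1 : x ≤ 1) (F : Finset (Ed d)) :
    ∑ η ∈ F.powerset, qL x F η = 1 := by
  have h1 := den_pos x hx hx1 F
  unfold qL
  rw [← Finset.sum_div]
  exact div_self (by linarith)

/-- Convergence along all increasing exhausting sequences. -/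
theorem PE_tend (x : ℝ) (hx : 0 ≤ x) (hx1 : x ≤ 1) (s : ℝ) (F : Finset (Ed d))
    (f : Finset (Ed d) → Finset (Ed d) → ℝ) (hf : Loc F f) (E : ℕ → Finset (Ed d))
    (hm : Monotone E) (he : ∀ e, ∃ L, e ∈ E L) :
    Tendsto (fun L => PE x s (E L) f) atTop (nhds (∑ η ∈ F.powerset, qL x F η * EB s F (f η))) := by
  have h1 := den_pos x hx hx1 F
  have hden : Tendsto (fun L => ∑ η ∈ F.powerset, x ^ η.card * co x F (bd η) (E L)) atTop
      (nhds (∑ η ∈ F.powerset, x ^ η.card * cl x F (bd η))) :=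
    tendsto_finsetSum _ fun η _ => (co_tend x hx hx1 F (bd η) E hm he).const_mul _
  have hnum : Tendsto (fun L => ∑ η ∈ F.powerset, x ^ η.card * co x F (bd η) (E L) *
      EB s F (f η)) atTop (nhds (∑ η ∈ F.powerset, x ^ η.card * cl x F (bd η) * EB s F (f η))) :=
    tendsto_finsetSum _ fun η _ =>
      ((co_tend x hx hx1 F (bd η) E hm he).const_mul _).mul_const _
  have hlim := hnum.div hden (by linarith)
  have h2 : (∑ η ∈ F.powerset, x ^ η.card * cl x F (bd η) * EB s F (f η)) /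
      ∑ η ∈ F.powerset, x ^ η.card * cl x F (bd η) = ∑ η ∈ F.powerset, qL x F η * EB s F (f η) := by
    rw [Finset.sum_div]
    refine Finset.sum_congr rfl fun η _ => ?_
    unfold qL
    ring
  rw [h2] at hlim
  refine hlim.congr' ?_
  obtain ⟨L0, hL0⟩ := exh E hm he F
  filter_upwards [eventually_ge_atTop L0] with L hL
  have hFE : F ⊆ E L := hL0.trans (hm hL)
  have hz := ZZ_zero_ge x hx (E L \ F)
  have hz' := ZZ_zero_ge x hx (E L)
  have h3 : ∑ η ∈ F.powerset, x ^ η.card * co x F (bd η) (E L) =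
      ZZ (loopM x) (E L) 0 / ZZ (loopM x) (E L \ F) 0 := by
    rw [ZZ_split x (E L) F hFE, Finset.sum_div]
    refine Finset.sum_congr rfl fun η _ => ?_
    unfold co
    rw [mul_div_assoc]
  have h4 : ∑ η ∈ F.powerset, x ^ η.card * co x F (bd η) (E L) * EB s F (f η) =
      EL (loopM x) (E L) 0 (fun η => EB s (E L) (f η)) / ZZ (loopM x) (E L \ F) 0 := by
    rw [EL_loc x s (E L) F hFE f hf, Finset.sum_div]
    refine Finset.sum_congr rfl fun η _ => ?_
    unfold co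
    ring
  have h5 : ((fun L => ∑ η ∈ F.powerset, x ^ η.card * co x F (bd η) (E L) * EB s F (f η)) /
      fun L => ∑ η ∈ F.powerset, x ^ η.card * co x F (bd η) (E L)) L =
      (∑ η ∈ F.powerset, x ^ η.card * co x F (bd η) (E L) * EB s F (f η)) /
        ∑ η ∈ F.powerset, x ^ η.card * co x F (bd η) (E L) := rfl
  rw [h5, h3, h4]
  unfold PE
  have hz0 : ZZ (loopM x) (E L \ F) 0 ≠ 0 := by linarith
  have hz0' : ZZ (loopM x) (E L) 0 ≠ 0 := by linarith
  field_simp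

theorem PI_eq (x : ℝ) (hx : 0 ≤ x) (hx1 : x ≤ 1) (s : ℝ) (F : Finset (Ed d))
    (f : Finset (Ed d) → Finset (Ed d) → ℝ) (hf : Loc F f) :
    PI x s f = ∑ η ∈ F.powerset, qL x F η * EB s F (f η) :=
  (PE_tend x hx hx1 s F f hf (boxE d) (boxE_mono d) (boxE_exh d)).limUnder_eq

theorem PI_tend_gen (x : ℝ) (hx : 0 ≤ x) (hx1 : x ≤ 1) (s : ℝ) (F : Finset (Ed d))
    (f : Finset (Ed d) → Finset (Ed d) → ℝ) (hf : Loc F f) (E : ℕ → Finset (Ed d))
    (hm : Monotone E) (he : ∀ e, ∃ L, e ∈ E L) :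
    Tendsto (fun L => PE x s (E L) f) atTop (nhds (PI x s f)) := by
  rw [PI_eq x hx hx1 s F f hf]
  exact PE_tend x hx hx1 s F f hf E hm he

theorem PI_tend (x : ℝ) (hx : 0 ≤ x) (hx1 : x ≤ 1) (s : ℝ) (F : Finset (Ed d))
    (f : Finset (Ed d) → Finset (Ed d) → ℝ) (hf : Loc F f) :
    Tendsto (fun N => PE x s (boxE d N) f) atTop (nhds (PI x s f)) :=
  PI_tend_gen x hx hx1 s F f hf (boxE d) (boxE_mono d) (boxE_exh d)

end Pool.Agent.Inv
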