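import Pool.Agent.Inv.Arm
import Pool.Agent.Drt.Main

/-! From the differential inequality to percolation of the single current. -/

set_option autoImplicit false

namespace Pool.Agent.Inv

open Finset Filter MeasureTheory Pool.Agent.SRC

variable {d : ℕ}

/-- One arm probability of the trace of the current. -/
theorem curP_far (β : ℝ) (hβ : 0 < β) (m : ℕ) (E : Finset (Ed d)) :
    curP β E {n | Far (m : ℤ) {e | 0 < n e} 0} =
      PE (Real.tanh β) (1 - 1 / Real.cosh β) E (far m 0) := by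
  classical
  have h1 : cS β E (fun n => ind (n ∈ {n : Ed d → ℕ | Far (m : ℤ) {e | 0 < n e} 0})) =
      Real.cosh β ^ E.card * EL (loopM (Real.tanh β)) E 0 (fun η =>
        EB (1 - 1 / Real.cosh β) E (fun ξ => ind (Far (m : ℤ) (↑(η ∪ ξ) : Set (Ed d)) 0))) := by
    rw [← cS_trace β hβ.le E (fun T => ind (Far (m : ℤ) (↑T : Set (Ed d)) 0))]
    unfold cS
    refine tsum_congr fun n => ?_
    congr 1
    apply ind_congr
    have h2 : (↑(tr E (SRC.ext E n)) : Set (Ed d)) = {e | 0 < SRC.ext E n e} := by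
      ext e
      rw [Finset.mem_coe, tr, Finset.mem_filter, Set.mem_ofPred_eq]
      constructor
      · exact fun h => h.2
      · intro h
        refine ⟨?_, h⟩
        by_contra he
        unfold SRC.ext at h
        rw [dif_neg he] at h
        exact absurd h (lt_irrefl 0)
    rw [h2]
    exact Iff.rfl
  unfold curP PE
  have h3 := Real.cosh_pos β
  have h4 : Real.cosh β ^ E.card ≠ 0 := pow_ne_zero _ h3.ne'
  rw [h1, XF_one β hβ, mul_div_mul_left _ _ h4]
  rfl

/-- Percolation from a uniform lower bound on the one-arm probabilities. -/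
theorem perc (β : ℝ) (hβ : 0 < β) (c : ℝ) (hc : 0 < c)
    (h : ∀ m : ℕ, c ≤ th d (Real.tanh β) (1 - 1 / Real.cosh β) m) :
    ∃ μ : Measure (Ed d → ℕ), IsProbabilityMeasure μ ∧
      (∀ (F : Finset (Ed d)) (k : Ed d → ℕ),
        Tendsto (fun L => curP β (boxE d L) (cyl F k)) atTop (nhds (μ.real (cyl F k)))) ∧
      0 < μ {n | {v | conn {e | 0 < n e} 0 v}.Infinite} := by
  obtain ⟨μ, hμ, hlim⟩ := ex_mu β hβ (boxE d) (boxE_mono d) (boxE_exh d)
  refine ⟨μ, hμ, hlim, ?_⟩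
  obtain ⟨hx, hx1⟩ := XF_tanh hβ
  set A : ℕ → Set (Ed d → ℕ) := fun K => {n | Far ((K + 1 : ℕ) : ℤ) {e | 0 < n e} 0} with hA
  have hAm : ∀ K, MeasurableSet (A K) := fun K => meas_far _ _
  have hAB : ∀ K, A K = {n | Far ((K + 1 : ℕ) : ℤ) {e | e ∈ boxE d (K + 1) ∧ 0 < n e} 0} := by
    intro K
    ext n
    constructor
    · intro hn
      exact TC.far_box (K + 1) (by omega) {e | 0 < n e} hn
    · rintro ⟨v, h1, i, h2⟩
      exact ⟨v, conn_mono (fun e he => he.2) h1, i, h2⟩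
  have hK : ∀ K, c ≤ μ.real (A K) := by
    intro K
    have h1 : Tendsto (fun L => curP β (boxE d L) (A K)) atTop (nhds (μ.real (A K))) := by
      refine ev_lim β hβ (boxE d) μ hμ hlim (boxE d (K + 1)) _ fun n n' hn => ?_
      have h2 : {e | e ∈ boxE d (K + 1) ∧ 0 < n e} = {e | e ∈ boxE d (K + 1) ∧ 0 < n' e} := by
        ext e
        constructor
        · rintro ⟨a, b⟩
          exact ⟨a, by rwa [← hn e a]⟩
        · rintro ⟨a, b⟩
          exact ⟨a, by rwa [hn e a]⟩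
      rw [hAB K, Set.mem_ofPred_eq, Set.mem_ofPred_eq, h2]
    have h2 : Tendsto (fun L => curP β (boxE d L) (A K)) atTop
        (nhds (th d (Real.tanh β) (1 - 1 / Real.cosh β) (K + 1))) := by
      have h3 := PI_tend (Real.tanh β) hx hx1 (1 - 1 / Real.cosh β) _ _
        (far_loc (d := d) (K + 1) (by omega))
      refine h3.congr fun L => ?_
      exact (curP_far β hβ (K + 1) (boxE d L)).symm
    rw [tendsto_nhds_unique h1 h2]
    exact h (K + 1)
  -- the intersection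
  have hanti : Antitone A := by
    intro K K' hKK n hn
    obtain ⟨v, h1, i, h2⟩ := hn
    refine ⟨v, h1, i, le_trans ?_ h2⟩
    exact_mod_cast Nat.succ_le_succ hKK
  have hlimA : Tendsto (fun K => μ.real (A K)) atTop (nhds (μ.real (⋂ K, A K))) := by
    have h1 := tendsto_measure_iInter_atTop (μ := μ) (s := A)
      (fun K => (hAm K).nullMeasurableSet) hanti ⟨0, measure_ne_top μ _⟩
    exact (ENNReal.tendsto_toReal (measure_ne_top μ _)).comp h1
  have h1 : c ≤ μ.real (⋂ K, A K) := ge_of_tendsto' hlimA hK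
  have h2 : c ≤ μ.real {n | {v | conn {e | 0 < n e} 0 v}.Infinite} := by
    refine h1.trans (measureReal_mono fun n hn => ?_)
    rw [Set.mem_iInter] at hn
    intro hfin
    obtain ⟨M, hM⟩ : ∃ M : ℕ, ∀ v ∈ {v | conn {e | 0 < n e} 0 v}, ∀ i, |v i| ≤ (M : ℤ) := by
      classical
      set S := hfin.toFinset with hS
      refine ⟨S.sup fun v => Finset.univ.sup fun i => (v i).natAbs, fun v hv i => ?_⟩
      have h2 : v ∈ S := by
        rw [hS, Set.Finite.mem_toFinset]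
        exact hv
      have h3 : (v i).natAbs ≤ S.sup fun v => Finset.univ.sup fun i => (v i).natAbs :=
        le_trans (Finset.le_sup (f := fun i => (v i).natAbs) (Finset.mem_univ i))
          (Finset.le_sup (f := fun v : Vx d => Finset.univ.sup fun i => (v i).natAbs) h2)
      rw [Int.abs_eq_natAbs]
      exact_mod_cast h3
    obtain ⟨v, h2, i, h3⟩ := hn M
    have h4 := hM v h2 i
    rw [Pi.zero_apply, sub_zero] at h3
    push_cast at h3
    linarith
  by_contra hcon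
  have h5 : μ {n : Ed d → ℕ | {v | conn {e | 0 < n e} 0 v}.Infinite} = 0 :=
    nonpos_iff_eq_zero.mp (not_lt.mp hcon)
  rw [Measure.real, h5] at h2
  simp at h2
  linarith

/-! ### Small `n` -/

/-- The straight path of length `n` from the origin. -/
noncomputable def spath (d : ℕ) (i : Fin d) (n : ℕ) : Finset (Ed d) :=
  (Finset.range n).image fun j : ℕ => ((Pi.single i (j : ℤ) : Vx d), i)

theorem spath_conn (i : Fin d) (n : ℕ) (j : ℕ) (hj : j ≤ n) :
    conn (↑(spath d i n) : Set (Ed d)) 0 (Pi.single i (j : ℤ)) := by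
  induction j with
  | zero =>
    rw [Nat.cast_zero, Pi.single_zero]
    exact conn_refl _ _
  | succ j ih =>
    refine Relation.ReflTransGen.tail (ih (by omega)) ⟨i, Or.inl ⟨?_, ?_⟩⟩
    · rw [Finset.mem_coe]
      unfold spath
      exact mem_image.2 ⟨j, mem_range.2 (by omega), rfl⟩
    · unfold uv
      rw [← Pi.single_add]
      push_cast
      rfl

theorem spath_far (i : Fin d) (n : ℕ) : Far (n : ℤ) (↑(spath d i n) : Set (Ed d)) 0 := by
  refine ⟨_, spath_conn i n n le_rfl, i, ?_⟩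
  rw [Pi.single_eq_same, Pi.zero_apply, sub_zero]
  exact le_abs_self _

theorem spath_star (i : Fin d) (n : ℕ) : (spath d i n).erase ((0 : Vx d), i) ∩ star0 d = ∅ := by
  rw [Finset.eq_empty_iff_forall_notMem]
  intro e he
  rw [mem_inter, mem_erase] at he
  obtain ⟨⟨h1, h2⟩, h3⟩ := he
  unfold spath at h2
  rw [mem_image] at h2
  obtain ⟨j, hj, rfl⟩ := h2
  unfold star0 at h3
  rw [mem_union, mem_image, mem_image] at h3
  rcases h3 with ⟨k, _, hk⟩ | ⟨k, _, hk⟩
  · have h4 : (0 : Vx d) = Pi.single i (j : ℤ) := congrArg Prod.fst hk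
    have h5 : k = i := congrArg Prod.snd hk
    exact h1 (by rw [← h4])
  · have h4 : (-uv k : Vx d) = Pi.single i (j : ℤ) := congrArg Prod.fst hk
    have h5 : k = i := congrArg Prod.snd hk
    have h6 := congrFun h4 i
    unfold uv at h6
    rw [h5, Pi.neg_apply, Pi.single_eq_same, Pi.single_eq_same] at h6
    omega

theorem spath_sub (i : Fin d) (n : ℕ) : spath d i n ⊆ boxE d n := by
  intro e he
  unfold spath at he
  rw [mem_image] at he
  obtain ⟨j, hj, rfl⟩ := he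
  rw [mem_range] at hj
  unfold boxE bx
  rw [mem_edg, Finset.mem_Icc, Finset.mem_Icc]
  unfold tip
  have h1 : ∀ k : Fin d, -(n : ℤ) ≤ (Pi.single i (j : ℤ) : Vx d) k ∧
      (Pi.single i (j : ℤ) : Vx d) k ≤ n ∧
      -(n : ℤ) ≤ (Pi.single i (j : ℤ) : Vx d) k + (uv i : Vx d) k ∧
      (Pi.single i (j : ℤ) : Vx d) k + (uv i : Vx d) k ≤ n := by
    intro k
    unfold uv
    by_cases hk : k = i
    · subst hk
      rw [Pi.single_eq_same, Pi.single_eq_same]
      omega
    · rw [Pi.single_eq_of_ne hk, Pi.single_eq_of_ne hk]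
      omega
  exact ⟨⟨fun k => (h1 k).1, fun k => (h1 k).2.1⟩, fun k => (h1 k).2.2.1, fun k => (h1 k).2.2.2⟩

theorem pv_spath (i : Fin d) (n : ℕ) (hn : 1 ≤ n) :
    pv n ((0 : Vx d), i) ∅ (spath d i n) = 1 := by
  refine ind_true ⟨?_, ?_⟩
  · refine Far.mono ?_ (spath_far i n)
    rw [Finset.coe_subset, empty_union]
    exact Finset.subset_insert _ _
  · rintro ⟨w, h1, k, h2⟩
    rw [empty_union] at h1
    rw [star0_conn _ (spath_star i n) w h1] at h2
    simp at h2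
    omega

theorem pv_low (hd : 1 ≤ d) (x : ℝ) (hx : 0 ≤ x) (hx1 : x ≤ 1) (a b : ℝ) (ha : 0 < a)
    (hb : b < 1) (n : ℕ) (hn : 1 ≤ n) :
    ∃ κ : ℝ, 0 < κ ∧ ∀ s ∈ Set.Icc a b, κ ≤ ∑ e ∈ boxE d n, PI x s (pv n e) := by
  classical
  set i0 : Fin d := ⟨0, by omega⟩
  set P := spath d i0 n with hP
  have hPs : P ⊆ boxE d n := spath_sub i0 n
  have hq : 0 < qL x (boxE d n) ∅ := by
    unfold qL
    have h7 : bd (∅ : Finset (Ed d)) = 0 := sum_empty
    rw [h7, cl_zero x hx, card_empty, pow_zero, one_mul]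
    exact div_pos one_pos (lt_of_lt_of_le one_pos (den_pos x hx hx1 _))
  have he0 : ((0 : Vx d), i0) ∈ boxE d n := by
    refine hPs (mem_image.2 ⟨0, mem_range.2 (by omega), ?_⟩)
    rw [Nat.cast_zero, Pi.single_zero]
  refine ⟨qL x (boxE d n) ∅ * (a ^ P.card * (1 - b) ^ (boxE d n \ P).card),
    mul_pos hq (mul_pos (pow_pos ha _) (pow_pos (by linarith) _)), fun s hs => ?_⟩
  have hs0 : 0 ≤ s := ha.le.trans hs.1
  have hs1 : s ≤ 1 := hs.2.trans hb.le
  have h1 : PI x s (pv n ((0 : Vx d), i0)) ≤ ∑ e ∈ boxE d n, PI x s (pv n e) :=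
    Finset.single_le_sum (f := fun e => PI x s (pv n e))
      (fun e _ => PI_pv_nonneg x hx hx1 s hs0 hs1 n hn e) he0
  refine le_trans ?_ h1
  rw [PI_eq x hx hx1 s (boxE d n) _ (pv_loc n hn _)]
  have h4 : qL x (boxE d n) ∅ * EB s (boxE d n) (pv n ((0 : Vx d), i0) ∅) ≤
      ∑ η ∈ (boxE d n).powerset, qL x (boxE d n) η *
        EB s (boxE d n) (pv n ((0 : Vx d), i0) η) := by
    refine Finset.single_le_sum (f := fun η => qL x (boxE d n) η *
      EB s (boxE d n) (pv n ((0 : Vx d), i0) η))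
      (fun η _ => mul_nonneg (qL_nonneg x hx hx1 _ _) ?_) (empty_mem_powerset _)
    have := EB_mono s hs0 hs1 (boxE d n) (fun _ => 0) (pv n ((0 : Vx d), i0) η)
      fun b _ => pv_nonneg _ _ _ _
    rwa [EB_const] at this
  refine le_trans (mul_le_mul_of_nonneg_left ?_ hq.le) h4
  unfold EB
  have h6 := Finset.single_le_sum (f := fun b : Finset (Ed d) =>
    s ^ b.card * (1 - s) ^ (boxE d n \ b).card * pv n ((0 : Vx d), i0) ∅ b)
    (fun b _ => mul_nonneg (mul_nonneg (pow_nonneg hs0 _) (pow_nonneg (by linarith) _))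
      (pv_nonneg _ _ _ _)) (mem_powerset.2 hPs)
  refine le_trans ?_ h6
  show _ ≤ s ^ P.card * (1 - s) ^ (boxE d n \ P).card * pv n ((0 : Vx d), i0) ∅ P
  rw [hP, pv_spath i0 n hn, mul_one, ← hP]
  exact mul_le_mul (pow_le_pow_left₀ ha.le hs.1 _) (pow_le_pow_left₀ (by linarith)
    (by linarith [hs.2]) _) (pow_nonneg (by linarith) _) (pow_nonneg hs0 _)

/-- The differential inequality on `[a, b]`, for `n ≥ n₀`. -/
def DI (d : ℕ) (x a b : ℝ) : Prop :=
  ∃ C : ℝ, 0 < C ∧ ∃ n₀ : ℕ, ∀ s ∈ Set.Icc a b, ∀ n : ℕ, n₀ ≤ n →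
    (n : ℝ) * (th d x s n * (1 - th d x s n)) ≤
      C * (∑ k ∈ Finset.range n, th d x s k) * ∑ e ∈ boxE d n, PI x s (pv n e)

/-- Polynomial lower bound at `s = 0`. -/
def LOW (d : ℕ) (x : ℝ) : Prop :=
  ∃ c C₀ : ℝ, 0 < c ∧ ∀ n : ℕ, 1 ≤ n → c * (n : ℝ) ^ (-C₀) ≤ th d x 0 n

theorem sum_th_ge (hd : 1 ≤ d) (x : ℝ) (hx : 0 ≤ x) (hx1 : x ≤ 1) (s : ℝ) (hs : 0 ≤ s)
    (hs1 : s ≤ 1) (n : ℕ) (hn : 1 ≤ n) : 1 ≤ ∑ k ∈ Finset.range n, th d x s k := by
  rw [← th_zero hd x hx hx1 s]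
  exact Finset.single_le_sum (f := fun k => th d x s k)
    (fun k _ => th_nonneg x hx hx1 s hs hs1 k) (mem_range.2 hn)

/-- The differential inequality for all `n ≥ 1`, without the factor `1 - θ`. -/
theorem DI_all (hd : 1 ≤ d) (x : ℝ) (hx : 0 ≤ x) (hx1 : x ≤ 1) (a b : ℝ) (ha : 0 < a)
    (hb : b < 1) (h : DI d x a b) : ∃ c : ℝ, 0 < c ∧ ∀ s ∈ Set.Icc a b, ∀ n : ℕ, 1 ≤ n →
      c * n * th d x s n / (∑ k ∈ Finset.range n, th d x s k) ≤
        ∑ e ∈ boxE d n, PI x s (pv n e) := by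
  classical
  obtain ⟨C, hC, n₀, hCn⟩ := h
  have h1 : ∀ n : ℕ, ∃ κ : ℝ, 0 < κ ∧ (1 ≤ n → ∀ s ∈ Set.Icc a b,
      κ ≤ ∑ e ∈ boxE d n, PI x s (pv n e)) := by
    intro n
    by_cases hn : 1 ≤ n
    · obtain ⟨κ, h2, h3⟩ := pv_low hd x hx hx1 a b ha hb n hn
      exact ⟨κ, h2, fun _ => h3⟩
    · exact ⟨1, one_pos, fun h => absurd h hn⟩
  choose κ hκ0 hκ using h1
  set δ : ℝ := ((1 - b) / (1 + x)) ^ (2 * d) with hδ
  have hδ0 : 0 < δ := pow_pos (div_pos (by linarith) (by linarith)) _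
  -- a common lower bound for small n
  obtain ⟨κ₀, hκ₀, hκ₀'⟩ : ∃ κ₀ : ℝ, 0 < κ₀ ∧ ∀ n ∈ Finset.range (n₀ + 1), κ₀ ≤ κ n := by
    refine ⟨(Finset.range (n₀ + 1)).inf' ⟨0, mem_range.2 (by omega)⟩ κ, ?_, fun n hn =>
      Finset.inf'_le _ hn⟩
    rw [Finset.lt_inf'_iff]
    exact fun n _ => hκ0 n
  refine ⟨min (δ / C) (κ₀ / (n₀ + 1)), lt_min (div_pos hδ0 hC) (div_pos hκ₀ (by positivity)),
    fun s hs n hn => ?_⟩
  have hs0 : 0 ≤ s := ha.le.trans hs.1
  have hs1 : s ≤ 1 := hs.2.trans hb.le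
  have hS := sum_th_ge hd x hx hx1 s hs0 hs1 n hn
  have ht0 := th_nonneg x hx hx1 s hs0 hs1 n (d := d)
  have ht1 := th_le_one hd x hx hx1 s hs0 hs1 n
  have hn0 : (0 : ℝ) < n := by exact_mod_cast hn
  set S := ∑ k ∈ Finset.range n, th d x s k with hSd
  set G := ∑ e ∈ boxE d n, PI x s (pv n e) with hG
  by_cases hn₀ : n₀ ≤ n
  · have h2 := hCn s hs n hn₀
    have h3 := one_sub_th x hx hx1 s hs0 hs1 n hn (d := d)
    have h4 : δ ≤ 1 - th d x s n := by
      refine le_trans ?_ h3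
      refine pow_le_pow_left₀ (div_nonneg (by linarith) (by linarith)) ?_ _
      exact div_le_div_of_nonneg_right (by linarith [hs.2]) (by linarith)
    rw [div_le_iff₀ (by linarith)]
    have h5 : min (δ / C) (κ₀ / (n₀ + 1)) * n * th d x s n ≤ δ / C * (n * th d x s n) := by
      rw [mul_assoc]
      exact mul_le_mul_of_nonneg_right (min_le_left _ _) (by positivity)
    refine h5.trans ?_
    rw [div_mul_eq_mul_div, div_le_iff₀ hC]
    calc δ * (n * th d x s n) ≤ (1 - th d x s n) * (n * th d x s n) :=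
          mul_le_mul_of_nonneg_right h4 (by positivity)
      _ = (n : ℝ) * (th d x s n * (1 - th d x s n)) := by ring
      _ ≤ C * S * G := h2
      _ = G * S * C := by ring
  · have h2 : κ₀ ≤ G := (hκ₀' n (mem_range.2 (by omega))).trans (hκ n hn s hs)
    rw [div_le_iff₀ (by linarith)]
    have h3 : min (δ / C) (κ₀ / (n₀ + 1)) * n * th d x s n ≤ κ₀ := by
      have h4 : min (δ / C) (κ₀ / (n₀ + 1)) ≤ κ₀ / (n₀ + 1) := min_le_right _ _
      have h5 : (n : ℝ) ≤ n₀ + 1 := by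
        have : n ≤ n₀ + 1 := by omega
        exact_mod_cast this
      have h6 : 0 ≤ κ₀ / (n₀ + 1) := by positivity
      calc min (δ / C) (κ₀ / (n₀ + 1)) * n * th d x s n
          ≤ κ₀ / (n₀ + 1) * n * th d x s n := by
            refine mul_le_mul_of_nonneg_right (mul_le_mul_of_nonneg_right h4 hn0.le) ht0
        _ ≤ κ₀ / (n₀ + 1) * (n₀ + 1) * 1 := by
            refine mul_le_mul (mul_le_mul_of_nonneg_left h5 h6) ht1 ht0 (by positivity)
        _ = κ₀ := by field_simp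
    nlinarith

/-- The one-arm probabilities are bounded below. -/
theorem th_low (hd : 1 ≤ d) (x : ℝ) (hx : 0 ≤ x) (hx1 : x ≤ 1) (a b : ℝ) (ha : 0 < a)
    (hab : a < b) (hb : b < 1) (h : DI d x a b) (h' : LOW d x) :
    ∃ c : ℝ, 0 < c ∧ ∀ m, c ≤ th d x b m := by
  obtain ⟨c, hc, hcn⟩ := DI_all hd x hx hx1 a b ha hb h
  obtain ⟨c1, C₀, hc1, hlow⟩ := h'
  have hpos : ∀ n, ∀ s ∈ Set.Icc a b, 0 < th d x s n := by
    intro n s hs
    rcases Nat.eq_zero_or_pos n with rfl | hn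
    · rw [th_zero hd x hx hx1]
      exact one_pos
    · have h1 := th_mono_s hd x hx hx1 n ⟨le_rfl, zero_le_one⟩
        ⟨ha.le.trans hs.1, hs.2.trans hb.le⟩ (ha.le.trans hs.1)
      have h2 : 0 < c1 * (n : ℝ) ^ (-C₀) :=
        mul_pos hc1 (Real.rpow_pos_of_pos (by exact_mod_cast hn) _)
      exact lt_of_lt_of_le (h2.trans_le (hlow n hn)) h1
  have hyp : Drt.Hyp (fun n s => th d x s n)
      (fun n s => if n = 0 then 0 else ∑ e ∈ boxE d n, PI x s (pv n e)) a b c := by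
    refine ⟨hab, hc, hpos, ?_, ?_, ?_, ?_⟩
    · exact fun n s hs => th_le_one hd x hx hx1 s (ha.le.trans hs.1) (hs.2.trans hb.le) n
    · exact fun n s hs => th_anti hd x hx hx1 s (ha.le.trans hs.1) (hs.2.trans hb.le)
        (Nat.le_succ n)
    · intro n s hs
      rcases Nat.eq_zero_or_pos n with rfl | hn
      · rw [if_pos rfl]
        have h1 : (fun s => th d x s 0) = fun _ => (1 : ℝ) := by
          funext s
          exact th_zero hd x hx hx1 s
        rw [h1]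
        exact hasDerivAt_const s 1
      · rw [if_neg (by omega)]
        exact th_deriv x hx hx1 n hn s
    · intro n s hs
      rcases Nat.eq_zero_or_pos n with rfl | hn
      · rw [if_pos rfl]
        simp
      · rw [if_neg (by omega)]
        exact hcn s hs n hn
  have hev : ∀ᶠ n : ℕ in atTop, (n : ℝ) ^ (-(C₀ + 1)) ≤ th d x a n := by
    have h1 : ∀ᶠ n : ℕ in atTop, c1⁻¹ ≤ (n : ℝ) :=
      tendsto_natCast_atTop_atTop.eventually (eventually_ge_atTop _)
    filter_upwards [h1, eventually_ge_atTop 1] with n h2 hn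
    have hn0 : (0 : ℝ) < n := by exact_mod_cast hn
    have h3 := th_mono_s hd x hx hx1 n (⟨le_rfl, zero_le_one⟩ : (0 : ℝ) ∈ Set.Icc (0 : ℝ) 1)
      ⟨ha.le, (hab.trans hb).le⟩ ha.le
    refine le_trans ?_ ((hlow n hn).trans h3)
    have h4 : (n : ℝ) ^ (-(C₀ + 1)) = (n : ℝ)⁻¹ * (n : ℝ) ^ (-C₀) := by
      rw [neg_add, add_comm, Real.rpow_add hn0, Real.rpow_neg_one]
    rw [h4]
    refine mul_le_mul_of_nonneg_right ?_ (Real.rpow_nonneg hn0.le _)
    rw [inv_le_comm₀ hn0 hc1]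
    exact h2
  refine ⟨c * (b - a), mul_pos hc (by linarith), fun m => ?_⟩
  exact Drt.main hyp hev m

/-- Final theorem: the differential inequality and the polynomial lower bound imply percolation of the single
random current. -/
theorem final (hd : 1 ≤ d) (β : ℝ) (hβ : 0 < β)
    (h : ∀ a b : ℝ, 0 < a → a < b → b < 1 → DI d (Real.tanh β) a b)
    (h' : LOW d (Real.tanh β)) :
    ∃ μ : Measure (Ed d → ℕ), IsProbabilityMeasure μ ∧
      (∀ (F : Finset (Ed d)) (k : Ed d → ℕ),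
        Tendsto (fun L => curP β (boxE d L) (cyl F k)) atTop (nhds (μ.real (cyl F k)))) ∧
      0 < μ {n | {v | conn {e | 0 < n e} 0 v}.Infinite} := by
  obtain ⟨hx, hx1⟩ := XF_tanh hβ
  have hc := Real.cosh_pos β
  have h1 : 1 < Real.cosh β := Real.one_lt_cosh.2 hβ.ne'
  set b : ℝ := 1 - 1 / Real.cosh β with hb
  have hb0 : 0 < b := by
    rw [hb, sub_pos, div_lt_one hc]
    exact h1
  have hb1 : b < 1 := by
    rw [hb]
    linarith [one_div_pos.2 hc]
  obtain ⟨c, hc0, hcm⟩ := th_low hd (Real.tanh β) hx hx1 (b / 2) b (by linarith) (by linarith) hb1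
    (h _ _ (by linarith) (by linarith) hb1) h'
  exact perc β hβ c hc0 hcm

end Pool.Agent.Inv
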