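import Pool.Agent.Inv.Defs

/-! Linearity, monotonicity, translation invariance. -/

set_option autoImplicit false

namespace Pool.Agent.Inv

open Finset Filter Pool.Agent.SRC

variable {d : ℕ}

theorem Loc.mono {F F' : Finset (Ed d)} (h : F ⊆ F') {f : Finset (Ed d) → Finset (Ed d) → ℝ}
    (hf : Loc F f) : Loc F' f := by
  intro η b
  have h1 : ∀ t : Finset (Ed d), t ∩ F' ∩ F = t ∩ F := by
    intro t
    rw [inter_assoc, inter_eq_right.mpr h]
  rw [hf η b, hf (η ∩ F') (b ∩ F'), h1, h1]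

theorem PE_mono (x : ℝ) (hx : 0 ≤ x) (s : ℝ) (hs : 0 ≤ s) (hs1 : s ≤ 1) (E : Finset (Ed d))
    (f g : Finset (Ed d) → Finset (Ed d) → ℝ) (h : ∀ η b, η ⊆ E → b ⊆ E → f η b ≤ g η b) :
    PE x s E f ≤ PE x s E g := by
  have h1 := ZZ_zero_ge x hx E
  unfold PE
  refine div_le_div_of_nonneg_right ?_ (by linarith)
  refine EL_mono (loopM x) hx zero_le_one E 0 _ _ fun η hη => ?_
  exact EB_mono s hs hs1 E _ _ fun b hb => h η b hη hb

theorem PE_add (x s : ℝ) (E : Finset (Ed d)) (f g : Finset (Ed d) → Finset (Ed d) → ℝ) :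
    PE x s E (fun η b => f η b + g η b) = PE x s E f + PE x s E g := by
  unfold PE
  rw [← add_div]
  congr 1
  simp only [EB_add]
  exact EL_add _ _ _ _ _

theorem PE_smul (x s : ℝ) (E : Finset (Ed d)) (c : ℝ)
    (f : Finset (Ed d) → Finset (Ed d) → ℝ) :
    PE x s E (fun η b => c * f η b) = c * PE x s E f := by
  unfold PE
  rw [← mul_div_assoc]
  congr 1
  simp only [EB_smul]
  exact EL_smul _ _ _ _ _

theorem PE_const (x : ℝ) (hx : 0 ≤ x) (s : ℝ) (E : Finset (Ed d)) (c : ℝ) :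
    PE x s E (fun _ _ => c) = c := by
  have h1 := ZZ_zero_ge x hx E
  unfold PE
  simp only [EB_const]
  rw [EL_const]
  exact mul_div_cancel_right₀ c (by linarith)

theorem PE_sum {ι : Type*} (x s : ℝ) (E : Finset (Ed d)) (J : Finset ι)
    (f : ι → Finset (Ed d) → Finset (Ed d) → ℝ) :
    PE x s E (fun η b => ∑ i ∈ J, f i η b) = ∑ i ∈ J, PE x s E (f i) := by
  unfold PE
  simp only [EB_sum]
  rw [EL_sum, Finset.sum_div]

theorem PE_nonneg (x : ℝ) (hx : 0 ≤ x) (s : ℝ) (hs : 0 ≤ s) (hs1 : s ≤ 1) (E : Finset (Ed d))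
    (f : Finset (Ed d) → Finset (Ed d) → ℝ) (h : ∀ η b, η ⊆ E → b ⊆ E → 0 ≤ f η b) :
    0 ≤ PE x s E f := by
  have := PE_mono x hx s hs hs1 E (fun _ _ => 0) f h
  rwa [PE_const x hx] at this

theorem PI_mono (x : ℝ) (hx : 0 ≤ x) (hx1 : x ≤ 1) (s : ℝ) (hs : 0 ≤ s) (hs1 : s ≤ 1)
    (F G : Finset (Ed d)) (f g : Finset (Ed d) → Finset (Ed d) → ℝ) (hf : Loc F f) (hg : Loc G g)
    (h : ∀ η b, f η b ≤ g η b) : PI x s f ≤ PI x s g :=
  le_of_tendsto_of_tendsto' (PI_tend x hx hx1 s F f hf) (PI_tend x hx hx1 s G g hg)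
    fun N => PE_mono x hx s hs hs1 (boxE d N) f g fun η b _ _ => h η b

theorem Loc.add {F G : Finset (Ed d)} {f g : Finset (Ed d) → Finset (Ed d) → ℝ} (hf : Loc F f)
    (hg : Loc G g) : Loc (F ∪ G) fun η b => f η b + g η b := by
  intro η b
  have h1 := hf.mono subset_union_left (F' := F ∪ G) η b
  have h2 := hg.mono subset_union_right (F' := F ∪ G) η b
  show f η b + g η b = f _ _ + g _ _
  rw [h1, h2]

theorem Loc.smul {F : Finset (Ed d)} {f : Finset (Ed d) → Finset (Ed d) → ℝ} (hf : Loc F f)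
    (c : ℝ) : Loc F fun η b => c * f η b := by
  intro η b
  show c * f η b = c * f _ _
  rw [hf η b]

theorem Loc.sum {ι : Type*} {F : Finset (Ed d)} (J : Finset ι)
    (f : ι → Finset (Ed d) → Finset (Ed d) → ℝ) (hf : ∀ i ∈ J, Loc F (f i)) :
    Loc F fun η b => ∑ i ∈ J, f i η b := fun η b => Finset.sum_congr rfl fun i hi => hf i hi η b

theorem Loc.const (F : Finset (Ed d)) (c : ℝ) : Loc F fun _ _ => c := fun _ _ => rfl

theorem PI_add (x : ℝ) (hx : 0 ≤ x) (hx1 : x ≤ 1) (s : ℝ)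
    (F G : Finset (Ed d)) (f g : Finset (Ed d) → Finset (Ed d) → ℝ) (hf : Loc F f)
    (hg : Loc G g) : PI x s (fun η b => f η b + g η b) = PI x s f + PI x s g := by
  refine tendsto_nhds_unique (PI_tend x hx hx1 s (F ∪ G) _ (hf.add hg)) ?_
  simp only [PE_add]
  exact (PI_tend x hx hx1 s F f hf).add (PI_tend x hx hx1 s G g hg)

theorem PI_smul (x : ℝ) (hx : 0 ≤ x) (hx1 : x ≤ 1) (s : ℝ) (c : ℝ)
    (F : Finset (Ed d)) (f : Finset (Ed d) → Finset (Ed d) → ℝ) (hf : Loc F f) :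
    PI x s (fun η b => c * f η b) = c * PI x s f := by
  refine tendsto_nhds_unique (PI_tend x hx hx1 s F _ (hf.smul c)) ?_
  simp only [PE_smul]
  exact (PI_tend x hx hx1 s F f hf).const_mul c

theorem PI_sum {ι : Type*} (x : ℝ) (hx : 0 ≤ x) (hx1 : x ≤ 1) (s : ℝ)
    (F : Finset (Ed d)) (J : Finset ι) (f : ι → Finset (Ed d) → Finset (Ed d) → ℝ)
    (hf : ∀ i ∈ J, Loc F (f i)) :
    PI x s (fun η b => ∑ i ∈ J, f i η b) = ∑ i ∈ J, PI x s (f i) := by
  refine tendsto_nhds_unique (PI_tend x hx hx1 s F _ (Loc.sum J f hf)) ?_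
  simp only [PE_sum]
  exact tendsto_finsetSum _ fun i hi => PI_tend x hx hx1 s F (f i) (hf i hi)

theorem PI_const (x : ℝ) (hx : 0 ≤ x) (hx1 : x ≤ 1) (s : ℝ) (c : ℝ) :
    PI x s (fun _ _ : Finset (Ed d) => c) = c := by
  refine tendsto_nhds_unique (PI_tend x hx hx1 s ∅ _ (Loc.const ∅ c)) ?_
  simp only [PE_const x hx]
  exact tendsto_const_nhds

theorem PI_nonneg (x : ℝ) (hx : 0 ≤ x) (hx1 : x ≤ 1) (s : ℝ) (hs : 0 ≤ s) (hs1 : s ≤ 1)
    (F : Finset (Ed d)) (f : Finset (Ed d) → Finset (Ed d) → ℝ) (hf : Loc F f)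
    (h : ∀ η b, 0 ≤ f η b) : 0 ≤ PI x s f := by
  have := PI_mono x hx hx1 s hs hs1 ∅ F (fun _ _ => 0) f (Loc.const ∅ 0) hf h
  rwa [PI_const x hx hx1] at this

/-! ### Translations -/

theorem bde_shift (a : Vx d) (e : Ed d) (v : Vx d) : bde (shE a e) v = bde e (v - a) := by
  have h1 : (shE a e).1 = e.1 + a := rfl
  have h2 : tip (shE a e) = tip e + a := YE_tip a e
  unfold bde
  rw [Pi.add_apply, Pi.add_apply, h1, h2]
  congr 1
  · rw [Pi.single_apply, Pi.single_apply]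
    congr 1
    rw [eq_iff_iff, sub_eq_iff_eq_add]
  · rw [Pi.single_apply, Pi.single_apply]
    congr 1
    rw [eq_iff_iff, sub_eq_iff_eq_add]

theorem bd_shift (a : Vx d) (η : Finset (Ed d)) (v : Vx d) :
    bd (η.image (shE a)) v = bd η (v - a) := by
  unfold bd
  rw [Finset.sum_image fun e _ e' _ h => shE_inj a h, Finset.sum_apply, Finset.sum_apply]
  exact Finset.sum_congr rfl fun e _ => bde_shift a e v

theorem bd_shift_zero (a : Vx d) (η : Finset (Ed d)) :
    bd (η.image (shE a)) = 0 ↔ bd η = 0 := by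
  constructor
  · intro h
    funext v
    have h1 := congrFun h (v + a)
    rw [bd_shift, add_sub_cancel_right] at h1
    exact h1
  · intro h
    funext v
    rw [bd_shift, h]
    rfl

theorem EL_shift (x : ℝ) (a : Vx d) (E : Finset (Ed d)) (f : Finset (Ed d) → ℝ) :
    EL (loopM x) (E.image (shE a)) 0 f = EL (loopM x) E 0 (fun η => f (η.image (shE a))) := by
  classical
  unfold EL
  have h1 : (E.image (shE a)).powerset = E.powerset.image (fun η => η.image (shE a)) := by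
    ext t
    rw [mem_powerset, mem_image]
    constructor
    · intro h
      obtain ⟨u, hu, rfl⟩ := Finset.subset_image_iff.1 h
      exact ⟨u, mem_powerset.2 hu, rfl⟩
    · rintro ⟨u, hu, rfl⟩
      exact Finset.image_subset_image (mem_powerset.1 hu)
  have hinj : Function.Injective fun η : Finset (Ed d) => η.image (shE a) :=
    Finset.image_injective (shE_inj a)
  rw [h1, Finset.sum_image fun _ _ _ _ h => hinj h]
  refine Finset.sum_congr rfl fun η hη => ?_
  have h2 : (η.image (shE a)).card = η.card := Finset.card_image_of_injective _ (shE_inj a)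
  have h3 : (E.image (shE a) \ η.image (shE a)).card = (E \ η).card := by
    rw [← Finset.image_sdiff _ _ (shE_inj a), Finset.card_image_of_injective _ (shE_inj a)]
  rw [h2, h3]
  have h4 : ind ((loopM x).s • bd (η.image (shE a)) = 0) = ind ((loopM x).s • bd η = 0) := by
    apply ind_congr
    show (1 : ZMod 2) • bd (η.image (shE a)) = 0 ↔ (1 : ZMod 2) • bd η = 0
    rw [one_smul, one_smul]
    exact bd_shift_zero a η
  rw [h4]

theorem PE_shift (x s : ℝ) (a : Vx d) (E : Finset (Ed d))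
    (f : Finset (Ed d) → Finset (Ed d) → ℝ) :
    PE x s (E.image (shE a)) f =
      PE x s E (fun η b => f (η.image (shE a)) (b.image (shE a))) := by
  unfold PE ZZ
  rw [EL_shift, EL_shift]
  congr 1
  refine EL_congr _ _ _ _ _ fun η _ => ?_
  exact EB_shift s a E _

theorem Loc.shift {F : Finset (Ed d)} {f : Finset (Ed d) → Finset (Ed d) → ℝ} (hf : Loc F f)
    (a : Vx d) : Loc (F.image (shE (-a))) fun η b => f (η.image (shE a)) (b.image (shE a)) := by
  intro η b
  have h1 : ∀ t : Finset (Ed d), (t ∩ F.image (shE (-a))).image (shE a) ∩ F =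
      t.image (shE a) ∩ F := by
    intro t
    ext e
    simp only [mem_inter, mem_image]
    constructor
    · rintro ⟨⟨e', ⟨h1, _⟩, h3⟩, h4⟩
      exact ⟨⟨e', h1, h3⟩, h4⟩
    · rintro ⟨⟨e', h1, h3⟩, h4⟩
      refine ⟨⟨e', ⟨h1, e, h4, ?_⟩, h3⟩, h4⟩
      rw [← h3, YE_sh']
  show f _ _ = f _ _
  rw [hf (η.image (shE a)), hf ((η ∩ F.image (shE (-a))).image (shE a)), h1, h1]

/-- Translation invariance. -/
theorem PI_shift (x : ℝ) (hx : 0 ≤ x) (hx1 : x ≤ 1) (s : ℝ) (a : Vx d)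
    (F : Finset (Ed d)) (f : Finset (Ed d) → Finset (Ed d) → ℝ) (hf : Loc F f) :
    PI x s (fun η b => f (η.image (shE a)) (b.image (shE a))) = PI x s f := by
  have h1 := PI_tend_gen x hx hx1 s F f hf (fun N => (boxE d N).image (shE a))
    (fun N N' h => Finset.image_subset_image (boxE_mono d h)) (fun e => by
      obtain ⟨N, hN⟩ := boxE_exh d (shE (-a) e)
      exact ⟨N, mem_image.2 ⟨_, hN, YE_sh a e⟩⟩)
  simp only [PE_shift] at h1
  exact tendsto_nhds_unique (PI_tend x hx hx1 s _ _ (hf.shift a)) h1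

end Pool.Agent.Inv
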