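import Pool.Agent.Inv.Props

/-! Russo's formula. -/

set_option autoImplicit false

namespace Pool.Agent.Inv

open Finset Filter Pool.Agent.SRC

variable {d : ℕ}

theorem EB_insert (s : ℝ) (E : Finset (Ed d)) (e : Ed d) (he : e ∉ E)
    (f : Finset (Ed d) → ℝ) :
    EB s (insert e E) f = s * EB s E (fun b => f (insert e b)) + (1 - s) * EB s E f := by
  have h0 : insert e E = {e} ∪ E := rfl
  rw [h0, EB_union s {e} E (Finset.disjoint_singleton_left.2 he)]
  unfold EB
  rw [show ({e} : Finset (Ed d)).powerset = {∅, {e}} by
    ext t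
    rw [Finset.mem_powerset, Finset.subset_singleton_iff, Finset.mem_insert,
      Finset.mem_singleton]]
  rw [Finset.sum_insert (by
    rw [Finset.mem_singleton]
    exact (Finset.singleton_ne_empty e).symm), Finset.sum_singleton]
  simp only [Finset.card_empty, pow_zero, Finset.card_singleton, pow_one, Finset.sdiff_empty,
    Finset.sdiff_self, one_mul, mul_one, Finset.empty_union]
  have h1 : ∀ b : Finset (Ed d), {e} ∪ b = insert e b := fun b => rfl
  simp only [h1]
  ring

/-- Russo's formula in finite volume. -/
theorem EB_deriv (E : Finset (Ed d)) (f : Finset (Ed d) → ℝ) (s : ℝ) :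
    HasDerivAt (fun s => EB s E f)
      (∑ e ∈ E, EB s E (fun b => f (insert e b) - f (b.erase e))) s := by
  classical
  induction E using Finset.induction_on generalizing f with
  | empty =>
    rw [Finset.sum_empty]
    have h1 : (fun s => EB s (∅ : Finset (Ed d)) f) = fun _ => f ∅ := by
      funext s
      unfold EB
      simp
    rw [h1]
    exact hasDerivAt_const s _
  | insert e E he ih =>
    have h1 : (fun s => EB s (insert e E) f) =
        fun s => s * EB s E (fun b => f (insert e b)) + (1 - s) * EB s E f := by
      funext s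
      exact EB_insert s E e he f
    rw [h1]
    have h2 := (hasDerivAt_id s).mul (ih fun b => f (insert e b))
    have h3 := ((hasDerivAt_id s).const_sub 1).mul (ih f)
    have h4 := h2.add h3
    refine h4.congr_deriv ?_
    rw [Finset.sum_insert he, EB_insert s E e he]
    have h5 : EB s E (fun b => f (insert e (insert e b)) - f ((insert e b).erase e)) =
        EB s E (fun b => f (insert e b)) - EB s E f := by
      rw [sub_eq_add_neg, ← neg_one_mul (EB s E f), ← EB_smul, ← EB_add]
      refine EB_congr s E _ _ fun b hb => ?_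
      rw [Finset.insert_idem, Finset.erase_insert fun h => he (hb h)]
      ring
    have h6 : EB s E (fun b => f (insert e b) - f (b.erase e)) =
        EB s E (fun b => f (insert e b)) - EB s E f := by
      rw [sub_eq_add_neg, ← neg_one_mul (EB s E f), ← EB_smul, ← EB_add]
      refine EB_congr s E _ _ fun b hb => ?_
      rw [Finset.erase_eq_of_notMem fun h => he (hb h)]
      ring
    have h7 : ∀ e' ∈ E, EB s (insert e E) (fun b => f (insert e' b) - f (b.erase e')) =
        s * EB s E (fun b => f (insert e (insert e' b)) - f (insert e (b.erase e'))) +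
          (1 - s) * EB s E (fun b => f (insert e' b) - f (b.erase e')) := by
      intro e' he'
      have hne : e ≠ e' := fun h => he (h ▸ he')
      rw [EB_insert s E e he]
      congr 2
      refine EB_congr s E _ _ fun b _ => ?_
      rw [Finset.insert_comm, Finset.erase_insert_of_ne hne]
    rw [Finset.sum_congr rfl h7, Finset.sum_add_distrib, ← Finset.mul_sum, ← Finset.mul_sum, h5, h6]
    simp only [id_eq]
    ring

theorem Loc.ins {F : Finset (Ed d)} {f : Finset (Ed d) → Finset (Ed d) → ℝ} (hf : Loc F f)
    (e : Ed d) : Loc F fun η b => f η (insert e b) := by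
  intro η b
  show f η (insert e b) = f (η ∩ F) (insert e (b ∩ F))
  rw [hf η (insert e b), hf (η ∩ F) (insert e (b ∩ F))]
  congr 1
  · rw [inter_assoc, inter_self]
  · ext e'
    simp only [mem_inter, mem_insert]
    tauto

theorem Loc.ers {F : Finset (Ed d)} {f : Finset (Ed d) → Finset (Ed d) → ℝ} (hf : Loc F f)
    (e : Ed d) : Loc F fun η b => f η (b.erase e) := by
  intro η b
  show f η (b.erase e) = f (η ∩ F) ((b ∩ F).erase e)
  rw [hf η (b.erase e), hf (η ∩ F) ((b ∩ F).erase e)]
  congr 1
  · rw [inter_assoc, inter_self]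
  · ext e'
    simp only [mem_inter, mem_erase]
    tauto

/-- Russo's formula in infinite volume. -/
theorem PI_deriv (x : ℝ) (hx : 0 ≤ x) (hx1 : x ≤ 1) (F : Finset (Ed d))
    (f : Finset (Ed d) → Finset (Ed d) → ℝ) (hf : Loc F f) (s : ℝ) :
    HasDerivAt (fun s => PI x s f)
      (∑ e ∈ F, PI x s (fun η b => f η (insert e b) - f η (b.erase e))) s := by
  have h1 : (fun s => PI x s f) = fun s => ∑ η ∈ F.powerset, qL x F η * EB s F (f η) := by
    funext s
    exact PI_eq x hx hx1 s F f hf
  have h2 : ∀ e ∈ F, PI x s (fun η b => f η (insert e b) - f η (b.erase e)) =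
      ∑ η ∈ F.powerset, qL x F η * EB s F (fun b => f η (insert e b) - f η (b.erase e)) := by
    intro e _
    refine PI_eq x hx hx1 s F _ ?_
    intro η b
    show f η (insert e b) - f η (b.erase e) = f (η ∩ F) (insert e (b ∩ F)) -
      f (η ∩ F) ((b ∩ F).erase e)
    have h3 := hf.ins e η b
    have h4 := hf.ers e η b
    simp only at h3 h4
    rw [h3, h4]
  rw [h1, Finset.sum_congr rfl h2, Finset.sum_comm]
  refine HasDerivAt.fun_sum fun η _ => ?_
  rw [← Finset.mul_sum]
  exact (EB_deriv F (f η) s).const_mul _

/-- In finite volume. -/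
theorem PE_deriv (x : ℝ) (E : Finset (Ed d))
    (f : Finset (Ed d) → Finset (Ed d) → ℝ) (s : ℝ) :
    HasDerivAt (fun s => PE x s E f)
      (∑ e ∈ E, PE x s E (fun η b => f η (insert e b) - f η (b.erase e))) s := by
  unfold PE
  rw [← Finset.sum_div]
  refine HasDerivAt.div_const ?_ _
  rw [← EL_sum]
  unfold EL
  refine HasDerivAt.fun_sum fun η _ => ?_
  exact (EB_deriv E (f η) s).const_mul _

end Pool.Agent.Inv
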