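import Pool.Agent.Inv.Russo

/-! The one-arm probabilities. -/

set_option autoImplicit false

namespace Pool.Agent.Inv

open Finset Filter Pool.Agent.SRC

variable {d : ℕ}

/-- Indicator of the event that the cluster of `v` in `η ∪ b` reaches distance `n` from `v`. -/
noncomputable def far (n : ℕ) (v : Vx d) (η b : Finset (Ed d)) : ℝ :=
  ind (Far (n : ℤ) (↑(η ∪ b) : Set (Ed d)) v)

/-- Probability that the origin is connected to distance `n` (infinite volume). -/
noncomputable def th (d : ℕ) (x s : ℝ) (n : ℕ) : ℝ := PI x s (far (d := d) n 0)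

/-- Indicator of the event that the edge `e` of `b` is pivotal for `0 ↔ ∂Λ_n` in `η ∪ b`. -/
noncomputable def pv (n : ℕ) (e : Ed d) (η b : Finset (Ed d)) : ℝ :=
  ind (Far (n : ℤ) (↑(η ∪ insert e b) : Set (Ed d)) 0 ∧
    ¬ Far (n : ℤ) (↑(η ∪ b.erase e) : Set (Ed d)) 0)

/-- The edges of the box of radius `n` round `v`. -/
noncomputable def bxv (n : ℕ) (v : Vx d) : Finset (Ed d) := (boxE d n).image (shE v)

theorem Far.mono {M : ℤ} {ω ω' : Set (Ed d)} (h : ω ⊆ ω') {v : Vx d} (hf : Far M ω v) :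
    Far M ω' v := by
  obtain ⟨w, h1, h2⟩ := hf
  exact ⟨w, conn_mono h h1, h2⟩

theorem Far.anti {M M' : ℤ} (h : M ≤ M') {ω : Set (Ed d)} {v : Vx d} (hf : Far M' ω v) :
    Far M ω v := by
  obtain ⟨w, h1, i, h2⟩ := hf
  exact ⟨w, h1, i, h.trans h2⟩

theorem far_zero (hd : 1 ≤ d) (v : Vx d) (η b : Finset (Ed d)) : far 0 v η b = 1 := by
  refine ind_true ⟨v, conn_refl _ _, ⟨0, by omega⟩, ?_⟩
  simp

theorem far_loc (n : ℕ) (hn : 1 ≤ n) : Loc (boxE d n) (far n 0) := by
  intro η b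
  unfold far
  apply ind_congr
  have h1 : ({e | e ∈ boxE d n ∧ e ∈ (↑(η ∪ b) : Set (Ed d))} : Set (Ed d)) ⊆
      (↑(η ∩ boxE d n ∪ b ∩ boxE d n) : Set (Ed d)) := by
    rintro e ⟨h1, h2⟩
    rw [Finset.mem_coe, mem_union] at h2
    rw [Finset.mem_coe, mem_union, mem_inter, mem_inter]
    rcases h2 with h2 | h2
    · exact Or.inl ⟨h2, h1⟩
    · exact Or.inr ⟨h2, h1⟩
  have h2 : (↑(η ∩ boxE d n ∪ b ∩ boxE d n) : Set (Ed d)) ⊆ (↑(η ∪ b) : Set (Ed d)) := by
    rw [Finset.coe_subset]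
    exact union_subset_union inter_subset_left inter_subset_left
  constructor
  · intro h
    exact Far.mono h1 (TC.far_box n hn _ h)
  · exact Far.mono h2

theorem far_shift (n : ℕ) (v : Vx d) (η b : Finset (Ed d)) :
    far n v η b = far n 0 (η.image (shE (-v))) (b.image (shE (-v))) := by
  unfold far
  apply ind_congr
  have key : ∀ (a : Vx d) (ω : Finset (Ed d)) (u w : Vx d), conn (↑ω : Set (Ed d)) u w →
      conn (↑(ω.image (shE a)) : Set (Ed d)) (u + a) (w + a) := by
    intro a ω u w h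
    unfold conn at h ⊢
    induction h with
    | refl => exact Relation.ReflTransGen.refl
    | @tail p q _ h2 ih =>
      refine Relation.ReflTransGen.tail ih ?_
      obtain ⟨i, ⟨h3, h4⟩ | ⟨h3, h4⟩⟩ := h2
      · refine ⟨i, Or.inl ⟨?_, ?_⟩⟩
        · rw [Finset.mem_coe, mem_image]
          exact ⟨(p, i), h3, rfl⟩
        · rw [h4]; abel
      · refine ⟨i, Or.inr ⟨?_, ?_⟩⟩
        · rw [Finset.mem_coe, mem_image]
          exact ⟨(q, i), h3, rfl⟩
        · rw [h4]; abel
  have hu : (η ∪ b).image (shE (-v)) = η.image (shE (-v)) ∪ b.image (shE (-v)) :=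
    Finset.image_union _ _
  have hb : ((η ∪ b).image (shE (-v))).image (shE v) = η ∪ b := by
    rw [Finset.image_image]
    have h1 : shE v ∘ shE (-v) = (id : Ed d → Ed d) := by
      funext e
      exact YE_sh v e
    rw [h1, Finset.image_id]
  constructor
  · rintro ⟨w, h1, i, h2⟩
    refine ⟨w + -v, ?_, i, ?_⟩
    · have h3 := key (-v) (η ∪ b) v w h1
      rw [add_neg_cancel, hu] at h3
      exact h3
    · rw [Pi.add_apply, Pi.neg_apply, Pi.zero_apply, sub_zero, ← sub_eq_add_neg]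
      exact h2
  · rintro ⟨w, h1, i, h2⟩
    refine ⟨w + v, ?_, i, ?_⟩
    · rw [← hu] at h1
      have h3 := key v _ 0 w h1
      rw [hb, zero_add] at h3
      exact h3
    · rw [Pi.add_apply, add_sub_cancel_right]
      rwa [Pi.zero_apply, sub_zero] at h2

theorem far_loc_v (n : ℕ) (hn : 1 ≤ n) (v : Vx d) : Loc (bxv n v) (far n v) := by
  have h1 := (far_loc (d := d) n hn).shift (-v)
  rw [neg_neg] at h1
  have h2 : (fun η b : Finset (Ed d) => far n 0 (η.image (shE (-v))) (b.image (shE (-v)))) =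
      far n v := by
    funext η b
    exact (far_shift n v η b).symm
  rw [h2] at h1
  exact h1

theorem PI_far (hd : 1 ≤ d) (x : ℝ) (hx : 0 ≤ x) (hx1 : x ≤ 1) (s : ℝ) (n : ℕ) (v : Vx d) :
    PI x s (far n v) = th d x s n := by
  rcases Nat.eq_zero_or_pos n with rfl | hn
  · unfold th
    have h1 : ∀ v : Vx d, far 0 v = fun _ _ : Finset (Ed d) => (1 : ℝ) := by
      intro v
      funext η b
      exact far_zero hd v η b
    rw [h1, h1]
  · have h2 : (fun η b : Finset (Ed d) => far n 0 (η.image (shE (-v))) (b.image (shE (-v)))) =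
        far n v := by
      funext η b
      exact (far_shift n v η b).symm
    rw [← h2]
    exact PI_shift x hx hx1 s (-v) (boxE d n) (far n 0) (far_loc n hn)

theorem th_zero (hd : 1 ≤ d) (x : ℝ) (hx : 0 ≤ x) (hx1 : x ≤ 1) (s : ℝ) : th d x s 0 = 1 := by
  unfold th
  have h1 : far 0 (0 : Vx d) = fun _ _ : Finset (Ed d) => (1 : ℝ) := by
    funext η b
    exact far_zero hd 0 η b
  rw [h1, PI_const x hx hx1]

theorem far_nonneg (n : ℕ) (v : Vx d) (η b : Finset (Ed d)) : 0 ≤ far n v η b := ind_nonneg _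

theorem far_le_one (n : ℕ) (v : Vx d) (η b : Finset (Ed d)) : far n v η b ≤ 1 := ind_le_one _

theorem far_anti {m n : ℕ} (h : m ≤ n) (v : Vx d) (η b : Finset (Ed d)) :
    far n v η b ≤ far m v η b :=
  ind_mono fun hf => Far.anti (by exact_mod_cast h) hf

theorem th_nonneg (x : ℝ) (hx : 0 ≤ x) (hx1 : x ≤ 1) (s : ℝ) (hs : 0 ≤ s) (hs1 : s ≤ 1)
    (n : ℕ) : 0 ≤ th d x s n :=
  ge_of_tendsto' (b := (0 : ℝ)) (f := fun N => PE x s (boxE d N) (far n 0)) (x := atTop)
    (by
      rcases Nat.eq_zero_or_pos n with rfl | hn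
      · rcases Nat.eq_zero_or_pos d with rfl | hd
        · have h1 : far 0 (0 : Vx 0) = fun _ _ : Finset (Ed 0) => (0 : ℝ) := by
            funext η b
            refine ind_false ?_
            rintro ⟨w, _, i, _⟩
            exact i.elim0
          unfold th
          rw [h1]
          exact PI_tend x hx hx1 s ∅ _ (Loc.const ∅ 0)
        · have h1 : far 0 (0 : Vx d) = fun _ _ : Finset (Ed d) => (1 : ℝ) := by
            funext η b
            exact far_zero hd 0 η b
          unfold th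
          rw [h1]
          exact PI_tend x hx hx1 s ∅ _ (Loc.const ∅ 1)
      · exact PI_tend x hx hx1 s _ _ (far_loc n hn))
    fun N => PE_nonneg x hx s hs hs1 _ _ fun η b _ _ => far_nonneg n 0 η b

theorem th_le_one (hd : 1 ≤ d) (x : ℝ) (hx : 0 ≤ x) (hx1 : x ≤ 1) (s : ℝ) (hs : 0 ≤ s)
    (hs1 : s ≤ 1) (n : ℕ) : th d x s n ≤ 1 := by
  rcases Nat.eq_zero_or_pos n with rfl | hn
  · exact (th_zero hd x hx hx1 s).le
  · have h1 := PI_mono x hx hx1 s hs hs1 (boxE d n) ∅ (far n 0) (fun _ _ => 1) (far_loc n hn)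
      (Loc.const ∅ 1) (far_le_one n 0)
    rwa [PI_const x hx hx1] at h1

theorem th_anti (hd : 1 ≤ d) (x : ℝ) (hx : 0 ≤ x) (hx1 : x ≤ 1) (s : ℝ) (hs : 0 ≤ s)
    (hs1 : s ≤ 1) : Antitone (th d x s) := by
  intro m n h
  rcases Nat.eq_zero_or_pos m with rfl | hm
  · rw [th_zero hd x hx hx1]
    exact th_le_one hd x hx hx1 s hs hs1 n
  · exact PI_mono x hx hx1 s hs hs1 _ _ _ _ (far_loc n (hm.trans_le h)) (far_loc m hm)
      (far_anti h 0)

/-- Russo's formula for the one-arm probability. -/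
theorem th_deriv (x : ℝ) (hx : 0 ≤ x) (hx1 : x ≤ 1) (n : ℕ) (hn : 1 ≤ n) (s : ℝ) :
    HasDerivAt (fun s => th d x s n) (∑ e ∈ boxE d n, PI x s (pv n e)) s := by
  have h1 := PI_deriv x hx hx1 (boxE d n) (far n 0) (far_loc n hn) s
  refine h1.congr_deriv (Finset.sum_congr rfl fun e _ => ?_)
  congr 1
  funext η b
  unfold far pv
  by_cases h2 : Far (n : ℤ) (↑(η ∪ b.erase e) : Set (Ed d)) 0
  · have h3 : Far (n : ℤ) (↑(η ∪ insert e b) : Set (Ed d)) 0 := by
      refine Far.mono ?_ h2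
      rw [Finset.coe_subset]
      exact union_subset_union (Finset.Subset.refl _)
        ((Finset.erase_subset e b).trans (Finset.subset_insert e b))
    rw [ind_true h2, ind_true h3, ind_false fun h => h.2 h2, sub_self]
  · rw [ind_false h2, sub_zero]
    exact ind_congr ⟨fun h => ⟨h, h2⟩, fun h => h.1⟩

theorem pv_loc (n : ℕ) (hn : 1 ≤ n) (e : Ed d) : Loc (boxE d n) (pv n e) := by
  intro η b
  have h3 := (far_loc (d := d) n hn).ins e η b
  have h4 := (far_loc (d := d) n hn).ers e η b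
  simp only at h3 h4
  unfold far at h3 h4
  have key : ∀ p q : Prop, ind p = ind q → (p ↔ q) := by
    intro p q h
    by_cases hp : p <;> by_cases hq : q
    · exact ⟨fun _ => hq, fun _ => hp⟩
    · rw [ind_true hp, ind_false hq] at h
      norm_num at h
    · rw [ind_false hp, ind_true hq] at h
      norm_num at h
    · exact ⟨fun h' => absurd h' hp, fun h' => absurd h' hq⟩
  unfold pv
  exact ind_congr (and_congr (key _ _ h3) (not_congr (key _ _ h4)))

theorem pv_nonneg (n : ℕ) (e : Ed d) (η b : Finset (Ed d)) : 0 ≤ pv n e η b := ind_nonneg _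

theorem PI_pv_nonneg (x : ℝ) (hx : 0 ≤ x) (hx1 : x ≤ 1) (s : ℝ) (hs : 0 ≤ s) (hs1 : s ≤ 1)
    (n : ℕ) (hn : 1 ≤ n) (e : Ed d) : 0 ≤ PI x s (pv n e) :=
  PI_nonneg x hx hx1 s hs hs1 _ _ (pv_loc n hn e) (pv_nonneg n e)

/-- Monotonicity in `s`. -/
theorem th_mono_s (hd : 1 ≤ d) (x : ℝ) (hx : 0 ≤ x) (hx1 : x ≤ 1) (n : ℕ) :
    MonotoneOn (fun s => th d x s n) (Set.Icc 0 1) := by
  rcases Nat.eq_zero_or_pos n with rfl | hn
  · intro s _ t _ _
    show th d x s 0 ≤ th d x t 0
    rw [th_zero hd x hx hx1, th_zero hd x hx hx1]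
  · refine monotoneOn_of_deriv_nonneg (convex_Icc 0 1) ?_ ?_ ?_
    · exact fun s _ => (th_deriv x hx hx1 n hn s).continuousAt.continuousWithinAt
    · exact fun s _ => (th_deriv x hx hx1 n hn s).differentiableAt.differentiableWithinAt
    · intro s hs
      rw [interior_Icc] at hs
      rw [(th_deriv x hx hx1 n hn s).deriv]
      exact Finset.sum_nonneg fun e _ => PI_pv_nonneg x hx hx1 s hs.1.le hs.2.le n hn e

end Pool.Agent.Inv
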